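import Mathlib

/-!
# The elimination lemma for sequences of cumulants
-/

set_option autoImplicit false

namespace Run7.h545

/-- A set of sequences closed under addition and under the scaling `k ↦ x ^ (k + 1) κ k`. -/
structure Semi (A : Set (ℕ → ℝ)) : Prop where
  add : ∀ κ ∈ A, ∀ κ' ∈ A, (fun k => κ k + κ' k) ∈ A
  scale : ∀ κ ∈ A, ∀ x : ℝ, 0 < x → (fun k => x ^ (k + 1) * κ k) ∈ A

lemma Semi.nsmul {A : Set (ℕ → ℝ)} (h : Semi A) (κ : ℕ → ℝ) (hκ : κ ∈ A) (N : ℕ) :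
    (fun k => ((N + 1 : ℕ) : ℝ) * κ k) ∈ A := by
  induction N with
  | zero => simpa using hκ
  | succ N ih =>
    have := h.add _ ih _ hκ
    convert this using 2 with k
    push_cast; ring

/-- Adding a small multiple: given `κ` and `β` with vanishing entries `1, …, n - 1` and entries
`n` of opposite signs, one can cancel the entry `n` of `κ`, with a small change of the entries
after `n`. -/
lemma Semi.cancel {A : Set (ℕ → ℝ)} (h : Semi A) (n : ℕ) (κ β : ℕ → ℝ) (hκ : κ ∈ A)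
    (hβ : β ∈ A) (hβ0 : ∀ i, 1 ≤ i → i < n → β i = 0) (hs : κ n * β n < 0)
    (ε : ℝ) (hε : 0 < ε) (M : ℕ) :
    ∃ κ' ∈ A, (∀ i, 1 ≤ i → i < n → κ' i = κ i) ∧ κ' n = 0 ∧
      ∀ i, n < i → i ≤ M → |κ' i - κ i| < ε := by
  have hβn : β n ≠ 0 := by intro h0; rw [h0] at hs; simp at hs
  set ρ : ℝ := - κ n / β n with hρ
  have hρpos : 0 < ρ := by
    have h1 : ρ = (-(κ n * β n)) / (β n * β n) := by rw [hρ]; field_simp
    rw [h1]
    exact div_pos (by linarith) (mul_self_pos.mpr hβn)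
  set B : ℝ := ∑ i ∈ Finset.range (M + 1), |β i| with hB
  have hB0 : 0 ≤ B := Finset.sum_nonneg (fun i _ => abs_nonneg _)
  set δ : ℝ := min 1 (ε / (2 * (ρ * B + 1))) with hδ
  have hδpos : 0 < δ := by
    rw [hδ]; apply lt_min one_pos; positivity
  have hδ1 : δ ≤ 1 := min_le_left _ _
  have hδ2 : ρ * B * δ < ε := by
    have h1 : δ ≤ ε / (2 * (ρ * B + 1)) := min_le_right _ _
    have h2 : 0 < 2 * (ρ * B + 1) := by positivity
    have h3 : δ * (2 * (ρ * B + 1)) ≤ ε := (le_div_iff₀ h2).mp h1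
    nlinarith [mul_nonneg hρpos.le hB0]
  obtain ⟨N0, hN0⟩ := exists_nat_ge (ρ / δ ^ (n + 1))
  set N : ℝ := ((N0 + 1 : ℕ) : ℝ) with hN
  have hNpos : 0 < N := by rw [hN]; positivity
  have hNge : ρ / δ ^ (n + 1) ≤ N := by rw [hN]; push_cast; linarith
  set x : ℝ := (ρ / N) ^ (((n + 1 : ℕ) : ℝ)⁻¹) with hx
  have hxpos : 0 < x := Real.rpow_pos_of_pos (by positivity) _
  have hxpow : x ^ (n + 1) = ρ / N := Real.rpow_inv_natCast_pow (by positivity) (by omega)
  have hxδ : x ≤ δ := by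
    have h1 : x ^ (n + 1) ≤ δ ^ (n + 1) := by
      rw [hxpow, div_le_iff₀ hNpos]
      rw [div_le_iff₀ (by positivity)] at hNge
      linarith
    exact le_of_pow_le_pow_left₀ (by omega) hδpos.le h1
  have hx1 : x ≤ 1 := hxδ.trans hδ1
  refine ⟨fun k => κ k + N * (x ^ (k + 1) * β k), ?_, ?_, ?_, ?_⟩
  · exact h.add κ hκ _ (h.nsmul _ (h.scale β hβ x hxpos) N0)
  · intro i hi1 hi2
    simp only [hβ0 i hi1 hi2]; ring
  · have : N * (x ^ (n + 1) * β n) = - κ n := by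
      rw [hxpow, hρ]; field_simp
    show κ n + N * (x ^ (n + 1) * β n) = 0
    rw [this]; ring
  · intro i hi1 hi2
    have h1 : κ i + N * (x ^ (i + 1) * β i) - κ i = ρ * (x ^ (i - n) * β i) := by
      have : x ^ (i + 1) = x ^ (n + 1) * x ^ (i - n) := by
        rw [← pow_add]; congr 1; omega
      rw [this, hxpow]; field_simp; ring
    show |κ i + N * (x ^ (i + 1) * β i) - κ i| < ε
    rw [h1, abs_mul, abs_of_pos hρpos, abs_mul, abs_of_pos (by positivity : 0 < x ^ (i - n))]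
    have h2 : x ^ (i - n) ≤ x := by
      calc x ^ (i - n) ≤ x ^ 1 := pow_le_pow_of_le_one hxpos.le hx1 (by omega)
        _ = x := pow_one x
    have h3 : |β i| ≤ B := by
      rw [hB]
      exact Finset.single_le_sum (f := fun i => |β i|) (fun j _ => abs_nonneg _)
        (Finset.mem_range.mpr (by omega))
    calc ρ * (x ^ (i - n) * |β i|) ≤ ρ * (δ * B) := by
          apply mul_le_mul_of_nonneg_left _ hρpos.le
          exact mul_le_mul (h2.trans hxδ) h3 (abs_nonneg _) hδpos.le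
      _ = ρ * B * δ := by ring
      _ < ε := hδ2

/-- **Elimination.** -/
theorem Semi.elim {A : Set (ℕ → ℝ)} (h : Semi A)
    (hpos : ∀ n, 1 ≤ n → ∃ κ ∈ A, 0 < κ n) (hneg : ∀ n, 1 ≤ n → ∃ κ ∈ A, κ n < 0) (n : ℕ) :
    ∀ κ ∈ A, ∀ ε : ℝ, 0 < ε → ∀ M : ℕ, ∃ κ' ∈ A, (∀ i, 1 ≤ i → i < n + 1 → κ' i = 0) ∧
      ∀ i, n + 1 ≤ i → i ≤ M → |κ' i - κ i| < ε := by
  induction n with
  | zero =>
    intro κ hκ ε hε M
    refine ⟨κ, hκ, ?_, ?_⟩
    · intro i h1 h2; omega
    · intro i _ _; simpa using hε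
  | succ n ih =>
    intro κ hκ ε hε M
    obtain ⟨κ1, hκ1, hz1, hc1⟩ := ih κ hκ (ε / 2) (by linarith) M
    rcases lt_trichotomy (κ1 (n + 1)) 0 with hlt | heq | hgt
    · obtain ⟨β0, hβ0, hβ0p⟩ := hpos (n + 1) (by omega)
      obtain ⟨β, hβ, hβz, hβc⟩ := ih β0 hβ0 (β0 (n + 1) / 2) (by linarith) (n + 1)
      have h1 := hβc (n + 1) le_rfl le_rfl
      rw [abs_lt] at h1
      have h2 : 0 < β (n + 1) := by linarith
      obtain ⟨κ', hκ', hz', hn', hc'⟩ := h.cancel (n + 1) κ1 β hκ1 hβ hβz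
        (mul_neg_of_neg_of_pos hlt h2) (ε / 2) (by linarith) M
      refine ⟨κ', hκ', ?_, ?_⟩
      · intro i hi1 hi2
        rcases Nat.lt_or_ge i (n + 1) with hi | hi
        · rw [hz' i hi1 hi, hz1 i hi1 hi]
        · have : i = n + 1 := by omega
          rw [this]; exact hn'
      · intro i hi1 hi2
        have h3 := hc' i (by omega) hi2
        have h4 := hc1 i (by omega) hi2
        calc |κ' i - κ i| = |(κ' i - κ1 i) + (κ1 i - κ i)| := by ring_nf
          _ ≤ |κ' i - κ1 i| + |κ1 i - κ i| := abs_add_le _ _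
          _ < ε := by linarith
    · refine ⟨κ1, hκ1, ?_, ?_⟩
      · intro i hi1 hi2
        rcases Nat.lt_or_ge i (n + 1) with hi | hi
        · exact hz1 i hi1 hi
        · have : i = n + 1 := by omega
          rw [this]; exact heq
      · intro i hi1 hi2
        have h4 := hc1 i (by omega) hi2
        linarith
    · obtain ⟨β0, hβ0, hβ0p⟩ := hneg (n + 1) (by omega)
      obtain ⟨β, hβ, hβz, hβc⟩ := ih β0 hβ0 (- β0 (n + 1) / 2) (by linarith) (n + 1)
      have h1 := hβc (n + 1) le_rfl le_rfl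
      rw [abs_lt] at h1
      have h2 : β (n + 1) < 0 := by linarith
      obtain ⟨κ', hκ', hz', hn', hc'⟩ := h.cancel (n + 1) κ1 β hκ1 hβ hβz
        (mul_neg_of_pos_of_neg hgt h2) (ε / 2) (by linarith) M
      refine ⟨κ', hκ', ?_, ?_⟩
      · intro i hi1 hi2
        rcases Nat.lt_or_ge i (n + 1) with hi | hi
        · rw [hz' i hi1 hi, hz1 i hi1 hi]
        · have : i = n + 1 := by omega
          rw [this]; exact hn'
      · intro i hi1 hi2
        have h3 := hc' i (by omega) hi2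
        have h4 := hc1 i (by omega) hi2
        calc |κ' i - κ i| = |(κ' i - κ1 i) + (κ1 i - κ i)| := by ring_nf
          _ ≤ |κ' i - κ1 i| + |κ1 i - κ i| := abs_add_le _ _
          _ < ε := by linarith

/-- There is a sequence whose entries `1, …, n - 1` vanish and whose entry `n` is negative. -/
theorem Semi.exists_neg {A : Set (ℕ → ℝ)} (h : Semi A)
    (hpos : ∀ n, 1 ≤ n → ∃ κ ∈ A, 0 < κ n) (hneg : ∀ n, 1 ≤ n → ∃ κ ∈ A, κ n < 0) (n : ℕ)
    (hn : 1 ≤ n) : ∃ κ ∈ A, (∀ i, 1 ≤ i → i < n → κ i = 0) ∧ κ n < 0 := by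
  obtain ⟨β, hβ, hβn⟩ := hneg n hn
  obtain ⟨κ, hκ, hz, hc⟩ := h.elim hpos hneg (n - 1) β hβ (- β n / 2) (by linarith) n
  have h1 := hc n (by omega) le_rfl
  rw [abs_lt] at h1
  refine ⟨κ, hκ, ?_, by linarith⟩
  intro i hi1 hi2
  exact hz i hi1 (by omega)

end Run7.h545
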