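import Mathlib

/-!
# Alternating binomial sums of powers
-/

set_option autoImplicit false

namespace Run7.h545

open Finset

/-- `p`-th finite difference at `0`. -/
noncomputable def DD (p : ℕ) (f : ℝ → ℝ) : ℝ :=
  ∑ k ∈ range (p + 1), (-1 : ℝ) ^ (p - k) * (p.choose k : ℝ) * f k

lemma DD_eq (p : ℕ) (f : ℝ → ℝ) : DD p f = (fwdDiff (1 : ℝ))^[p] f 0 := by
  rw [fwdDiff_iter_eq_sum_shift, DD]
  apply Finset.sum_congr rfl
  intro k _
  simp

lemma DD_pow_lt {j p : ℕ} (h : j < p) : DD p (fun x => x ^ j) = 0 := by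
  rw [DD_eq, fwdDiff_iter_pow_eq_zero_of_lt h]; rfl

lemma DD_pow_self (p : ℕ) : DD p (fun x => x ^ p) = p.factorial := by
  rw [DD_eq, fwdDiff_iter_eq_factorial]; rfl

lemma DD_reflect (p : ℕ) (f : ℝ → ℝ) :
    DD p f = (-1) ^ p * DD p (fun x => f (p - x)) := by
  unfold DD
  rw [← Finset.sum_range_reflect, Finset.mul_sum]
  apply Finset.sum_congr rfl
  intro k hk
  have hk' : k ≤ p := by simpa [Nat.lt_succ_iff] using hk
  have e1 : p + 1 - 1 - k = p - k := by omega
  have e2 : p - (p - k) = k := by omega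
  rw [e1, e2, Nat.choose_symm hk', Nat.cast_sub hk']
  have e3 : (-1 : ℝ) ^ p = (-1) ^ (p - k) * (-1) ^ k := by rw [← pow_add]; congr 1; omega
  have e4 : (-1 : ℝ) ^ (p - k) * (-1) ^ (p - k) = 1 := by
    rw [← mul_pow]; norm_num
  rw [e3]
  linear_combination (-((-1) ^ k * (p.choose k : ℝ) * f (p - k))) * e4

lemma DD_sum {ι : Type*} (p : ℕ) (s : Finset ι) (c : ι → ℝ) (f : ι → ℝ → ℝ) :
    DD p (fun x => ∑ i ∈ s, c i * f i x) = ∑ i ∈ s, c i * DD p (f i) := by
  unfold DD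
  simp_rw [Finset.mul_sum]
  rw [Finset.sum_comm]
  apply Finset.sum_congr rfl
  intro i _
  apply Finset.sum_congr rfl
  intro k _
  ring

lemma DD_pow_succ (p : ℕ) (hp : 1 ≤ p) : 0 < DD p (fun x => x ^ (p + 1)) := by
  -- symmetric function
  have h1 : DD p (fun x => (x - p / 2) ^ (p + 1)) = 0 := by
    have h := DD_reflect p (fun x => (x - p / 2) ^ (p + 1))
    have h2 : (fun x : ℝ => ((p : ℝ) - x - p / 2) ^ (p + 1)) =
        fun x : ℝ => ∑ i ∈ ({0} : Finset ℕ), (-1 : ℝ) ^ (p + 1) * (x - p / 2) ^ (p + 1) := by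
      funext x
      rw [Finset.sum_singleton, ← mul_pow]; congr 1; ring
    rw [h2, DD_sum p {0} (fun _ => (-1 : ℝ) ^ (p + 1)) (fun _ x => (x - p / 2) ^ (p + 1)),
      Finset.sum_singleton, ← mul_assoc, ← pow_add] at h
    have h3 : (-1 : ℝ) ^ (p + (p + 1)) = -1 := by
      apply Odd.neg_one_pow; exact ⟨p, by ring⟩
    rw [h3] at h
    linarith
  have h2 : (fun x : ℝ => (x - p / 2) ^ (p + 1)) =
      fun x : ℝ => ∑ i ∈ range (p + 2),
        ((-(p / 2 : ℝ)) ^ (p + 1 - i) * ((p + 1).choose i : ℝ)) * x ^ i := by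
    funext x
    rw [sub_eq_add_neg, add_pow]
    apply Finset.sum_congr rfl
    intro i _
    ring
  rw [h2, DD_sum p (range (p + 2))
    (fun i => (-(p / 2 : ℝ)) ^ (p + 1 - i) * ((p + 1).choose i : ℝ)) (fun i x => x ^ i)] at h1
  rw [Finset.sum_range_succ, Finset.sum_range_succ, Finset.sum_eq_zero] at h1
  · simp only [DD_pow_self] at h1
    have e1 : p + 1 - p = 1 := by omega
    have e2 : p + 1 - (p + 1) = 0 := by omega
    rw [e1, e2, Nat.choose_self] at h1
    have e3 : ((p + 1).choose p : ℝ) = p + 1 := by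
      rw [Nat.choose_succ_self_right]; push_cast; ring
    rw [e3] at h1
    have h3 : DD p (fun x => x ^ (p + 1)) = (p / 2 : ℝ) * (p + 1) * p.factorial := by
      simp only [pow_one, pow_zero, Nat.cast_one, one_mul] at h1
      linarith
    rw [h3]
    have : (0 : ℝ) < p := by exact_mod_cast hp
    positivity
  · intro i hi
    rw [DD_pow_lt (by simpa using hi), mul_zero]

end Run7.h545
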