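import Mathlib

/-!
# Binary linear codes as sample spaces: strength and the product formula
-/

set_option autoImplicit false

namespace Run7.h545

open Finset

/-- The sign character of `ZMod 2`. -/
noncomputable def chi (z : ZMod 2) : ℝ := if z = 0 then 1 else -1

@[simp] lemma chi_zero : chi 0 = 1 := by simp [chi]

@[simp] lemma chi_one : chi 1 = -1 := by simp [chi]

lemma zmod2_cases (z : ZMod 2) : z = 0 ∨ z = 1 := by
  fin_cases z
  · left; rfl
  · right; rfl

lemma chi_add (a b : ZMod 2) : chi (a + b) = chi a * chi b := by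
  rcases zmod2_cases a with rfl | rfl <;> rcases zmod2_cases b with rfl | rfl
  · simp
  · simp
  · simp
  · have : (1 + 1 : ZMod 2) = 0 := by decide
    rw [this]; simp

lemma chi_sq (a : ZMod 2) : chi a * chi a = 1 := by
  rcases zmod2_cases a with rfl | rfl <;> simp

lemma chi_sum {ι : Type*} (s : Finset ι) (f : ι → ZMod 2) :
    chi (∑ i ∈ s, f i) = ∏ i ∈ s, chi (f i) := by
  classical
  induction s using Finset.induction_on with
  | empty => simp
  | insert a s ha ih => rw [Finset.sum_insert ha, Finset.prod_insert ha, chi_add, ih]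

/-- The bit with index `i` of the sample `w`. -/
def bitz {I K : Type*} [Fintype K] (v : I → K → ZMod 2) (i : I) (w : K → ZMod 2) : ZMod 2 :=
  ∑ k, w k * v i k

/-- No nonempty set of at most `n` of the vectors `v i` sums to zero. -/
def Strong {I K : Type*} (v : I → K → ZMod 2) (n : ℕ) : Prop :=
  ∀ W : Finset I, W.Nonempty → W.card ≤ n → ∑ i ∈ W, v i ≠ 0

lemma sum_chi_eq_zero {K : Type*} [Fintype K] [DecidableEq K] (u : K → ZMod 2) (hu : u ≠ 0) :
    ∑ w : K → ZMod 2, chi (∑ k, w k * u k) = 0 := by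
  obtain ⟨k0, hk0⟩ : ∃ k, u k ≠ 0 := by
    by_contra h
    push Not at h
    exact hu (funext h)
  have h1 : u k0 = 1 := by
    rcases zmod2_cases (u k0) with h | h
    · exact absurd h hk0
    · exact h
  have key : ∑ w : K → ZMod 2, chi (∑ k, w k * u k) =
      ∑ w : K → ZMod 2, - chi (∑ k, w k * u k) := by
    rw [← Equiv.sum_comp (Equiv.addRight (Pi.single k0 (1 : ZMod 2)))]
    apply Finset.sum_congr rfl
    intro w _
    have : ∑ k, (Equiv.addRight (Pi.single k0 (1 : ZMod 2)) w) k * u k =
        ∑ k, w k * u k + 1 := by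
      simp only [Equiv.coe_addRight, Pi.add_apply, add_mul, Finset.sum_add_distrib]
      congr 1
      rw [Finset.sum_eq_single k0]
      · simp [h1]
      · intro b _ hb
        simp [Pi.single_eq_of_ne hb]
      · simp
    rw [this, chi_add]
    simp
  rw [Finset.sum_neg_distrib] at key
  linarith

lemma sum_prod_chi_bitz {I K : Type*} [Fintype K] [DecidableEq K] (v : I → K → ZMod 2)
    (W : Finset I) (hW : ∑ i ∈ W, v i ≠ 0) :
    ∑ w : K → ZMod 2, ∏ i ∈ W, chi (bitz v i w) = 0 := by
  have : ∀ w : K → ZMod 2, ∏ i ∈ W, chi (bitz v i w) =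
      chi (∑ k, w k * (∑ i ∈ W, v i) k) := by
    intro w
    rw [← chi_sum]
    congr 1
    simp only [bitz]
    rw [Finset.sum_comm]
    apply Finset.sum_congr rfl
    intro k _
    rw [Finset.sum_apply, Finset.mul_sum]
  simp_rw [this]
  exact sum_chi_eq_zero _ hW

lemma fun_eq_chi (F : ZMod 2 → ℝ) (z : ZMod 2) :
    F z = (F 0 + F 1) / 2 + (F 0 - F 1) / 2 * chi z := by
  rcases zmod2_cases z with rfl | rfl <;> simp <;> ring

/-- **Joint law of few bits.**  For a code of strength `n`, at most `n` bits are independent and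
uniformly distributed. -/
theorem sum_prod_bits {I K : Type*} [Fintype K] [DecidableEq K] [DecidableEq I]
    (v : I → K → ZMod 2) (n : ℕ) (hv : Strong v n) (A : Finset I) (hA : A.card ≤ n)
    (F : I → ZMod 2 → ℝ) :
    ∑ w : K → ZMod 2, ∏ a ∈ A, F a (bitz v a w) =
      (Fintype.card (K → ZMod 2) : ℝ) * ∏ a ∈ A, ((F a 0 + F a 1) / 2) := by
  have h1 : ∀ w : K → ZMod 2, ∏ a ∈ A, F a (bitz v a w) =
      ∑ B ∈ A.powerset, (∏ a ∈ B, ((F a 0 - F a 1) / 2)) * (∏ a ∈ A \ B, ((F a 0 + F a 1) / 2)) *
        ∏ a ∈ B, chi (bitz v a w) := by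
    intro w
    have : ∏ a ∈ A, F a (bitz v a w) =
        ∏ a ∈ A, ((F a 0 - F a 1) / 2 * chi (bitz v a w) + (F a 0 + F a 1) / 2) := by
      apply Finset.prod_congr rfl
      intro a _
      rw [fun_eq_chi (F a) (bitz v a w)]
      ring
    rw [this, Finset.prod_add]
    apply Finset.sum_congr rfl
    intro B _
    rw [Finset.prod_mul_distrib]
    ring
  simp_rw [h1]
  rw [Finset.sum_comm]
  rw [Finset.sum_eq_single ∅]
  · simp
  · intro B hB hB0
    rw [← Finset.mul_sum, sum_prod_chi_bitz, mul_zero]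
    apply hv B (Finset.nonempty_iff_ne_empty.mpr hB0)
    exact (Finset.card_le_card (Finset.mem_powerset.mp hB)).trans hA
  · intro h
    exact absurd (Finset.empty_mem_powerset A) h

/-- The full cube is a code of every strength. -/
lemma strong_single {I : Type*} [DecidableEq I] (n : ℕ) :
    Strong (fun i : I => (Pi.single i (1 : ZMod 2) : I → ZMod 2)) n := by
  intro W hW _ h
  obtain ⟨i, hi⟩ := hW
  have := congrFun h i
  rw [Finset.sum_apply, Finset.sum_eq_single i] at this
  · simp at this
  · intro b _ hb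
    simp [Pi.single_eq_of_ne (Ne.symm hb)]
  · intro h'
    exact absurd hi h'

lemma bitz_single {I : Type*} [Fintype I] [DecidableEq I] (i : I) (w : I → ZMod 2) :
    bitz (fun i : I => (Pi.single i (1 : ZMod 2) : I → ZMod 2)) i w = w i := by
  unfold bitz
  rw [Finset.sum_eq_single i]
  · simp
  · intro b _ hb
    simp [Pi.single_eq_of_ne hb]
  · simp

end Run7.h545
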