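import Mathlib
import Pool.Agent.Run7.h545.Code

/-!
# Coordinate laws built from signs and patterns, and their samples from codes
-/

set_option autoImplicit false

namespace Run7.h545

open Finset

/-- A symmetric finitely supported law: the random variable
`∑ s, ε_s * c_s (η_{g s})` with independent uniform signs `ε_s` and bits `η_s`. -/
structure Law where
  S : Type
  [fS : Fintype S]
  [dS : DecidableEq S]
  g : S → S
  c : S → ZMod 2 → ℝ

attribute [instance] Law.fS Law.dS

/-- The value of the random variable. -/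
noncomputable def Law.val (L : Law) (e h : L.S → ZMod 2) : ℝ :=
  ∑ s, chi (e s) * L.c s (h (L.g s))

/-- The moments. -/
noncomputable def Law.m (L : Law) (n : ℕ) : ℝ :=
  (∑ e : L.S → ZMod 2, ∑ h : L.S → ZMod 2, L.val e h ^ n) /
    ((Fintype.card (L.S → ZMod 2) : ℝ) * (Fintype.card (L.S → ZMod 2) : ℝ))

/-- The vector sampled with two codes. -/
noncomputable def Law.X (L : Law) {J K1 K2 : Type*} [Fintype K1] [Fintype K2]
    (v1 : L.S × J → K1 → ZMod 2) (v2 : L.S × J → K2 → ZMod 2)
    (w1 : K1 → ZMod 2) (w2 : K2 → ZMod 2) (i : J) : ℝ :=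
  L.val (fun s => bitz v1 (s, i) w1) (fun s => bitz v2 (s, i) w2)

lemma chi_pow (z : ZMod 2) (n : ℕ) : chi z ^ n = if Odd n then chi z else 1 := by
  rcases Nat.even_or_odd' n with ⟨k, hk | hk⟩
  · subst hk
    rw [pow_mul, pow_two, chi_sq, one_pow, if_neg]
    simp
  · subst hk
    rw [pow_succ, pow_mul, pow_two, chi_sq, one_pow, one_mul, if_pos]
    exact ⟨k, rfl⟩

section

variable {I K κ : Type*} [DecidableEq I] [Fintype K] [Fintype κ] [DecidableEq κ]

/-- The values taken an odd number of times. -/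
def oddset (a : K → I) : Finset I :=
  (univ.image a).filter (fun i => Odd (univ.filter (fun k => a k = i)).card)

lemma card_oddset_le (a : K → I) : (oddset a).card ≤ Fintype.card K :=
  (Finset.card_filter_le _ _).trans Finset.card_image_le

omit [DecidableEq κ] in
lemma prod_chi_eq (v : I → κ → ZMod 2) (a : K → I) (w : κ → ZMod 2) :
    ∏ k, chi (bitz v (a k) w) = ∏ i ∈ oddset a, chi (bitz v i w) := by
  rw [oddset, Finset.prod_filter]
  rw [← Finset.prod_fiberwise_of_maps_to (s := univ) (t := univ.image a) (g := a)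
    (fun k _ => Finset.mem_image_of_mem a (Finset.mem_univ k))]
  apply Finset.prod_congr rfl
  intro i _
  have : ∏ k ∈ univ.filter (fun k => a k = i), chi (bitz v (a k) w) =
      ∏ k ∈ univ.filter (fun k => a k = i), chi (bitz v i w) := by
    apply Finset.prod_congr rfl
    intro k hk
    rw [(Finset.mem_filter.mp hk).2]
  rw [this, Finset.prod_const, chi_pow]

lemma sum_prod_chi (v : I → κ → ZMod 2) (n : ℕ) (hv : Strong v n) (a : K → I)
    (hn : Fintype.card K ≤ n) :
    ∑ w : κ → ZMod 2, ∏ k, chi (bitz v (a k) w) =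
      if oddset a = ∅ then (Fintype.card (κ → ZMod 2) : ℝ) else 0 := by
  simp_rw [prod_chi_eq v a]
  split_ifs with h
  · rw [h]; simp
  · apply sum_prod_chi_bitz
    exact hv _ (Finset.nonempty_iff_ne_empty.mpr h) ((card_oddset_le a).trans hn)

lemma card_image_le_half (a : K → I) (h : oddset a = ∅) :
    2 * (univ.image a).card ≤ Fintype.card K := by
  have h1 : ∀ i ∈ univ.image a, 2 ≤ (univ.filter (fun k => a k = i)).card := by
    intro i hi
    have h2 : ¬ Odd (univ.filter (fun k => a k = i)).card := by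
      intro h3
      have : i ∈ oddset a := Finset.mem_filter.mpr ⟨hi, h3⟩
      rw [h] at this
      exact absurd this (Finset.notMem_empty i)
    have h4 : 0 < (univ.filter (fun k => a k = i)).card := by
      obtain ⟨k, _, hk⟩ := Finset.mem_image.mp hi
      exact Finset.card_pos.mpr ⟨k, Finset.mem_filter.mpr ⟨Finset.mem_univ _, hk⟩⟩
    rcases Nat.even_or_odd (univ.filter (fun k => a k = i)).card with h5 | h5
    · obtain ⟨r, hr⟩ := h5; omega
    · exact absurd h5 h2
  have h3 : Fintype.card K = ∑ i ∈ univ.image a, (univ.filter (fun k => a k = i)).card := by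
    rw [← Finset.card_eq_sum_card_fiberwise, Finset.card_univ]
    intro k _
    exact Finset.mem_coe.mpr (Finset.mem_image_of_mem a (Finset.mem_univ k))
  rw [h3, mul_comm, ← smul_eq_mul]
  exact Finset.card_nsmul_le_sum _ _ _ h1

lemma sum_prod_fun (v : I → κ → ZMod 2) (n : ℕ) (hv : Strong v n) (a : K → I)
    (hn : (univ.image a).card ≤ n) (f : K → ZMod 2 → ℝ) :
    ∑ w : κ → ZMod 2, ∏ k, f k (bitz v (a k) w) =
      (Fintype.card (κ → ZMod 2) : ℝ) * ∏ i ∈ univ.image a,
        (((∏ k ∈ univ.filter (fun k => a k = i), f k 0) +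
          (∏ k ∈ univ.filter (fun k => a k = i), f k 1)) / 2) := by
  rw [← sum_prod_bits v n hv (univ.image a) hn
    (fun i z => ∏ k ∈ univ.filter (fun k => a k = i), f k z)]
  apply Finset.sum_congr rfl
  intro w _
  rw [← Finset.prod_fiberwise_of_maps_to (s := univ) (t := univ.image a) (g := a)
    (fun k _ => Finset.mem_image_of_mem a (Finset.mem_univ k))]
  apply Finset.prod_congr rfl
  intro i _
  apply Finset.prod_congr rfl
  intro k hk
  rw [(Finset.mem_filter.mp hk).2]

end

/-- The universal value of the mixed moments. -/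
noncomputable def Law.Phi (L : Law) {J K : Type*} [DecidableEq J] [Fintype K] [DecidableEq K]
    (ι : K → J) : ℝ :=
  ∑ s : K → L.S,
    (if oddset (fun k => (s k, ι k)) = ∅ then (1 : ℝ) else 0) *
      ∏ i ∈ univ.image (fun k => (L.g (s k), ι k)),
        (((∏ k ∈ univ.filter (fun k => (L.g (s k), ι k) = i), L.c (s k) 0) +
          (∏ k ∈ univ.filter (fun k => (L.g (s k), ι k) = i), L.c (s k) 1)) / 2)

theorem Law.sum_prod_X (L : Law) {J K K1 K2 : Type*} [DecidableEq J] [Fintype K] [DecidableEq K]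
    [Fintype K1] [DecidableEq K1] [Fintype K2] [DecidableEq K2]
    (v1 : L.S × J → K1 → ZMod 2) (v2 : L.S × J → K2 → ZMod 2) (n1 n2 : ℕ)
    (hv1 : Strong v1 n1) (hv2 : Strong v2 n2) (ι : K → J)
    (h1 : Fintype.card K ≤ n1) (h2 : Fintype.card K ≤ 2 * n2 + 1) :
    ∑ w1 : K1 → ZMod 2, ∑ w2 : K2 → ZMod 2, ∏ k, L.X v1 v2 w1 w2 (ι k) =
      (Fintype.card (K1 → ZMod 2) : ℝ) * (Fintype.card (K2 → ZMod 2) : ℝ) * L.Phi ι := by
  have e1 : ∀ (w1 : K1 → ZMod 2) (w2 : K2 → ZMod 2), ∏ k, L.X v1 v2 w1 w2 (ι k) =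
      ∑ s : K → L.S, (∏ k, chi (bitz v1 (s k, ι k) w1)) *
        ∏ k, L.c (s k) (bitz v2 (L.g (s k), ι k) w2) := by
    intro w1 w2
    simp only [Law.X, Law.val]
    rw [Finset.prod_univ_sum]
    rw [Fintype.piFinset_univ]
    apply Finset.sum_congr rfl
    intro s _
    rw [Finset.prod_mul_distrib]
  simp_rw [e1]
  have e2 : ∑ w1 : K1 → ZMod 2, ∑ w2 : K2 → ZMod 2, ∑ s : K → L.S,
      (∏ k, chi (bitz v1 (s k, ι k) w1)) * ∏ k, L.c (s k) (bitz v2 (L.g (s k), ι k) w2) =
      ∑ s : K → L.S, (∑ w1 : K1 → ZMod 2, ∏ k, chi (bitz v1 (s k, ι k) w1)) *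
        (∑ w2 : K2 → ZMod 2, ∏ k, L.c (s k) (bitz v2 (L.g (s k), ι k) w2)) := by
    have : ∀ w1 : K1 → ZMod 2, ∑ w2 : K2 → ZMod 2, ∑ s : K → L.S,
        (∏ k, chi (bitz v1 (s k, ι k) w1)) * ∏ k, L.c (s k) (bitz v2 (L.g (s k), ι k) w2) =
        ∑ s : K → L.S, ∑ w2 : K2 → ZMod 2,
        (∏ k, chi (bitz v1 (s k, ι k) w1)) * ∏ k, L.c (s k) (bitz v2 (L.g (s k), ι k) w2) :=
      fun w1 => Finset.sum_comm
    simp_rw [this]
    rw [Finset.sum_comm]
    apply Finset.sum_congr rfl
    intro s _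
    rw [Finset.sum_mul]
    apply Finset.sum_congr rfl
    intro w1 _
    rw [Finset.mul_sum]
  rw [e2, Law.Phi, Finset.mul_sum]
  apply Finset.sum_congr rfl
  intro s _
  rw [sum_prod_chi v1 n1 hv1 (fun k => (s k, ι k)) h1]
  split_ifs with hodd
  · rw [sum_prod_fun v2 n2 hv2 (fun k => (L.g (s k), ι k)) _ (fun k => L.c (s k))]
    · ring
    · have h3 := card_image_le_half (fun k => (s k, ι k)) hodd
      have h4 : (univ.image (fun k => (L.g (s k), ι k))).card ≤
          (univ.image (fun k => (s k, ι k))).card := by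
        have : univ.image (fun k => (L.g (s k), ι k)) =
            (univ.image (fun k => (s k, ι k))).image (fun p => (L.g p.1, p.2)) := by
          rw [Finset.image_image]; rfl
        rw [this]
        exact Finset.card_image_le
      omega
  · ring

/-- Regrouping the bits by the coordinate. -/
def regroup (S J : Type*) :
    ((S × J → ZMod 2) × (S × J → ZMod 2)) ≃ (J → (S → ZMod 2) × (S → ZMod 2)) where
  toFun p := fun j => (fun s => p.1 (s, j), fun s => p.2 (s, j))
  invFun q := (fun x => (q x.2).1 x.1, fun x => (q x.2).2 x.1)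
  left_inv p := by ext x <;> rfl
  right_inv q := by ext j x <;> rfl

theorem Law.full_cube (L : Law) {J : Type*} [DecidableEq J] [Fintype J] (α : J → ℕ) :
    ∑ w1 : L.S × J → ZMod 2, ∑ w2 : L.S × J → ZMod 2,
      ∏ j, L.X (fun i => (Pi.single i (1 : ZMod 2) : L.S × J → ZMod 2))
        (fun i => (Pi.single i (1 : ZMod 2) : L.S × J → ZMod 2)) w1 w2 j ^ α j =
      ∏ j, ∑ e : L.S → ZMod 2, ∑ h : L.S → ZMod 2, L.val e h ^ α j := by
  simp only [Law.X, bitz_single]
  rw [← Fintype.sum_prod_type'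
    (f := fun (w1 w2 : L.S × J → ZMod 2) => ∏ j, L.val (fun s => w1 (s, j)) (fun s => w2 (s, j)) ^ α j)]
  rw [← Equiv.sum_comp (regroup L.S J).symm]
  have h1 : ∀ q : J → (L.S → ZMod 2) × (L.S → ZMod 2),
      (∏ j, L.val (fun s => ((regroup L.S J).symm q).1 (s, j))
        (fun s => ((regroup L.S J).symm q).2 (s, j)) ^ α j) =
      ∏ j, L.val (q j).1 (q j).2 ^ α j := fun q => rfl
  simp_rw [h1]
  have h2 : ∀ j, ∑ e : L.S → ZMod 2, ∑ h : L.S → ZMod 2, L.val e h ^ α j =
      ∑ p : (L.S → ZMod 2) × (L.S → ZMod 2), L.val p.1 p.2 ^ α j := by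
    intro j
    rw [Fintype.sum_prod_type]
  simp_rw [h2]
  rw [Finset.prod_univ_sum, Fintype.piFinset_univ]

/-- **Moments of the sampled vectors.**  The mixed moments of order `2 t` (or `2 t + 1`) are the
products of the moments of the law, if the sign code has strength `∑ α` and the pattern code has
strength half of it. -/
theorem Law.moment_eq (L : Law) {J K1 K2 : Type*} [DecidableEq J] [Fintype J]
    [Fintype K1] [DecidableEq K1] [Fintype K2] [DecidableEq K2]
    (v1 : L.S × J → K1 → ZMod 2) (v2 : L.S × J → K2 → ZMod 2) (n1 n2 : ℕ)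
    (hv1 : Strong v1 n1) (hv2 : Strong v2 n2) (α : J → ℕ)
    (h1 : ∑ j, α j ≤ n1) (h2 : ∑ j, α j ≤ 2 * n2 + 1) :
    ∑ w1 : K1 → ZMod 2, ∑ w2 : K2 → ZMod 2, ∏ j, L.X v1 v2 w1 w2 j ^ α j =
      (Fintype.card (K1 → ZMod 2) : ℝ) * (Fintype.card (K2 → ZMod 2) : ℝ) * ∏ j, L.m (α j) := by
  classical
  let K := Σ j : J, Fin (α j)
  let ι : K → J := fun k => k.1
  have hK : Fintype.card K = ∑ j, α j := by
    simp [K]
  have hprod : ∀ f : J → ℝ, ∏ k : K, f (ι k) = ∏ j, f j ^ α j := by
    intro f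
    rw [Fintype.prod_sigma]
    apply Finset.prod_congr rfl
    intro j _
    simp [ι]
  have e1 := L.sum_prod_X v1 v2 n1 n2 hv1 hv2 ι (by rw [hK]; exact h1) (by rw [hK]; exact h2)
  simp_rw [hprod] at e1
  rw [e1]
  have e2 := L.sum_prod_X (fun i => (Pi.single i (1 : ZMod 2) : L.S × J → ZMod 2))
    (fun i => (Pi.single i (1 : ZMod 2) : L.S × J → ZMod 2)) n1 n2 (strong_single _)
    (strong_single _) ι (by rw [hK]; exact h1) (by rw [hK]; exact h2)
  simp_rw [hprod] at e2
  rw [L.full_cube α] at e2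
  congr 1
  have hc : (Fintype.card (L.S × J → ZMod 2) : ℝ) =
      (Fintype.card (L.S → ZMod 2) : ℝ) ^ Fintype.card J := by
    rw [← Nat.cast_pow]
    congr 1
    simp only [Fintype.card_fun, Fintype.card_prod]
    rw [pow_mul]
  have hpos : (0 : ℝ) < (Fintype.card (L.S → ZMod 2) : ℝ) := by
    exact_mod_cast Fintype.card_pos
  simp only [Law.m, Finset.prod_div_distrib]
  rw [e2, Finset.prod_const, Finset.card_univ, hc]
  field_simp
  ring

end Run7.h545
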