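import Mathlib
import Pool.Agent.Run7.h545.Law

/-!
# Moment series and logarithmic derivatives
-/

set_option autoImplicit false

namespace Run7.h545

open Finset PowerSeries

/-- The exponential series of `a u`. -/
noncomputable def ex (a : ℝ) : PowerSeries ℝ := PowerSeries.mk (fun n => a ^ n / n.factorial)

lemma coeff_ex (a : ℝ) (n : ℕ) : coeff n (ex a) = a ^ n / n.factorial := by
  simp [ex]

lemma ex_eq (a : ℝ) : ex a = rescale a (exp ℝ) := by
  ext n
  rw [coeff_ex, coeff_rescale, coeff_exp]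
  simp [div_eq_mul_inv]

lemma ex_mul (a b : ℝ) : ex a * ex b = ex (a + b) := by
  rw [ex_eq, ex_eq, ex_eq, exp_mul_exp_eq_exp_add]

lemma ex_zero : ex 0 = 1 := by
  ext n
  rw [coeff_ex, coeff_one]
  rcases Nat.eq_zero_or_pos n with h | h
  · subst h; simp
  · rw [zero_pow (by omega), if_neg (by omega)]; simp

lemma ex_sum {ι : Type*} (s : Finset ι) (f : ι → ℝ) : ex (∑ i ∈ s, f i) = ∏ i ∈ s, ex (f i) := by
  classical
  induction s using Finset.induction_on with
  | empty => simp [ex_zero]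
  | insert a s ha ih => rw [Finset.sum_insert ha, Finset.prod_insert ha, ← ex_mul, ih]

lemma constantCoeff_ex (a : ℝ) : constantCoeff (ex a) = 1 := by
  rw [← coeff_zero_eq_constantCoeff_apply, coeff_ex]; simp

lemma derivative_ex (a : ℝ) : d⁄dX ℝ (ex a) = C a * ex a := by
  ext n
  rw [coeff_derivative, coeff_C_mul, coeff_ex, coeff_ex, Nat.factorial_succ]
  push_cast
  have : (n.factorial : ℝ) ≠ 0 := by positivity
  field_simp
  ring

/-- Logarithmic derivative. -/
noncomputable def logD (f : PowerSeries ℝ) : PowerSeries ℝ := d⁄dX ℝ f * f⁻¹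

lemma logD_mul_self (f : PowerSeries ℝ) (hf : constantCoeff f ≠ 0) : logD f * f = d⁄dX ℝ f := by
  rw [logD, mul_assoc, PowerSeries.inv_mul_cancel f hf, mul_one]

lemma logD_mul (f g : PowerSeries ℝ) (hf : constantCoeff f ≠ 0) (hg : constantCoeff g ≠ 0) :
    logD (f * g) = logD f + logD g := by
  unfold logD
  rw [PowerSeries.mul_inv_rev, Derivation.leibniz]
  simp only [smul_eq_mul]
  have h1 := PowerSeries.mul_inv_cancel f hf
  have h2 := PowerSeries.mul_inv_cancel g hg
  linear_combination (d⁄dX ℝ g * g⁻¹) * h1 + (d⁄dX ℝ f * f⁻¹) * h2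

lemma logD_one : logD 1 = 0 := by
  unfold logD
  rw [derivative_one, zero_mul]

lemma logD_prod {ι : Type*} (s : Finset ι) (f : ι → PowerSeries ℝ)
    (hf : ∀ i ∈ s, constantCoeff (f i) ≠ 0) : logD (∏ i ∈ s, f i) = ∑ i ∈ s, logD (f i) := by
  classical
  induction s using Finset.induction_on with
  | empty => simp [logD_one]
  | insert a s ha ih =>
    rw [Finset.prod_insert ha, Finset.sum_insert ha, logD_mul, ih]
    · intro i hi; exact hf i (Finset.mem_insert_of_mem hi)
    · exact hf a (Finset.mem_insert_self a s)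
    · rw [map_prod]
      exact Finset.prod_ne_zero_iff.mpr (fun i hi => hf i (Finset.mem_insert_of_mem hi))

lemma logD_rescale (f : PowerSeries ℝ) (hf : constantCoeff f ≠ 0) (a : ℝ) :
    logD (rescale a f) = C a * rescale a (logD f) := by
  have h1 : constantCoeff (rescale a f) ≠ 0 := by
    rw [← coeff_zero_eq_constantCoeff_apply, coeff_rescale]
    simpa using hf
  have h2 : d⁄dX ℝ (rescale a f) = C a * rescale a (d⁄dX ℝ f) := by
    ext n
    simp only [coeff_derivative, coeff_C_mul, coeff_rescale]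
    ring
  have h3 : rescale a (logD f) * rescale a f = rescale a (d⁄dX ℝ f) := by
    rw [← map_mul, logD_mul_self f hf]
  have h4 := PowerSeries.mul_inv_cancel _ h1
  unfold logD at h3 ⊢
  rw [h2, ← h3]
  linear_combination (C a * rescale a (d⁄dX ℝ f * f⁻¹)) * h4

lemma coeff_logD_rescale (f : PowerSeries ℝ) (hf : constantCoeff f ≠ 0) (a : ℝ) (n : ℕ) :
    coeff n (logD (rescale a f)) = a ^ (n + 1) * coeff n (logD f) := by
  rw [logD_rescale f hf, coeff_C_mul, coeff_rescale]; ring

/-! ### The series of a law -/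

/-- Number of sign patterns of a law. -/
noncomputable def Law.N (L : Law) : ℝ := (Fintype.card (L.S → ZMod 2) : ℝ)

lemma Law.N_pos (L : Law) : 0 < L.N := by
  unfold Law.N; exact_mod_cast Fintype.card_pos

/-- The exponential generating series of the moments. -/
noncomputable def Law.M (L : Law) : PowerSeries ℝ := PowerSeries.mk (fun n => L.m n / n.factorial)

lemma Law.coeff_M (L : Law) (n : ℕ) : coeff n L.M = L.m n / n.factorial := by simp [Law.M]

lemma Law.M_eq (L : Law) : L.M = C (1 / (L.N * L.N)) *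
    ∑ e : L.S → ZMod 2, ∑ h : L.S → ZMod 2, ex (L.val e h) := by
  ext n
  rw [Law.coeff_M, coeff_C_mul, Law.m]
  simp only [map_sum, coeff_ex]
  rw [← Law.N]
  simp_rw [← Finset.sum_div]
  have := L.N_pos
  field_simp

lemma Law.m_zero (L : Law) : L.m 0 = 1 := by
  rw [Law.m, ← Law.N]
  have := L.N_pos
  simp only [pow_zero, Finset.sum_const, Finset.card_univ, nsmul_eq_mul, mul_one]
  rw [← Law.N]
  field_simp

lemma Law.constantCoeff_M (L : Law) : constantCoeff L.M = 1 := by
  rw [← coeff_zero_eq_constantCoeff_apply, Law.coeff_M, Law.m_zero]; simp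

lemma Law.constantCoeff_M_ne (L : Law) : constantCoeff L.M ≠ 0 := by
  rw [L.constantCoeff_M]; exact one_ne_zero

lemma Law.m_odd (L : Law) (n : ℕ) (hn : Odd n) : L.m n = 0 := by
  rw [Law.m]
  have h1 : ∀ e h : L.S → ZMod 2, L.val (e + 1) h = - L.val e h := by
    intro e h
    simp only [Law.val]
    rw [← Finset.sum_neg_distrib]
    apply Finset.sum_congr rfl
    intro s _
    rw [Pi.add_apply, Pi.one_apply, chi_add, chi_one]; ring
  have h2 : ∑ e : L.S → ZMod 2, ∑ h : L.S → ZMod 2, L.val e h ^ n =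
      - ∑ e : L.S → ZMod 2, ∑ h : L.S → ZMod 2, L.val e h ^ n := by
    conv_lhs => rw [← Equiv.sum_comp (Equiv.addRight (1 : L.S → ZMod 2))]
    rw [← Finset.sum_neg_distrib]
    apply Finset.sum_congr rfl
    intro e _
    rw [← Finset.sum_neg_distrib]
    apply Finset.sum_congr rfl
    intro h _
    rw [Equiv.coe_addRight, h1, hn.neg_pow]
  have h3 : ∑ e : L.S → ZMod 2, ∑ h : L.S → ZMod 2, L.val e h ^ n = 0 := by linarith
  rw [h3, zero_div]

/-- The logarithmic derivative of the moment series. -/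
noncomputable def Law.K (L : Law) : PowerSeries ℝ := logD L.M

/-- Sum of independent laws. -/
def Law.add (L1 L2 : Law) : Law where
  S := L1.S ⊕ L2.S
  g := Sum.map L1.g L2.g
  c := Sum.elim L1.c L2.c

/-- Scaled law. -/
noncomputable def Law.scale (L : Law) (a : ℝ) : Law where
  S := L.S
  fS := L.fS
  dS := L.dS
  g := L.g
  c := fun s z => a * L.c s z

/-- The law of the zero random variable. -/
def Law.zero : Law where
  S := Empty
  g := id
  c := fun s _ => s.elim

lemma Law.val_add (L1 L2 : Law) (e h : L1.S ⊕ L2.S → ZMod 2) :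
    (L1.add L2).val e h =
      L1.val (fun s => e (Sum.inl s)) (fun s => h (Sum.inl s)) +
      L2.val (fun s => e (Sum.inr s)) (fun s => h (Sum.inr s)) := by
  unfold Law.val
  exact Fintype.sum_sum_type (fun s => chi (e s) * (L1.add L2).c s (h ((L1.add L2).g s)))

lemma Law.N_add (L1 L2 : Law) : (L1.add L2).N = L1.N * L2.N := by
  unfold Law.N
  rw [← Nat.cast_mul]
  congr 1
  rw [← Fintype.card_prod]
  exact Fintype.card_congr (Equiv.sumArrowEquivProdArrow L1.S L2.S (ZMod 2))

lemma sum_sum_arrow {A B : Type*} [Fintype A] [DecidableEq A] [Fintype B] [DecidableEq B]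
    {R : Type*} [AddCommMonoid R] (f : (A → ZMod 2) → (B → ZMod 2) → R) :
    ∑ e : A ⊕ B → ZMod 2, f (fun a => e (Sum.inl a)) (fun b => e (Sum.inr b)) =
      ∑ x : A → ZMod 2, ∑ y : B → ZMod 2, f x y := by
  rw [← Fintype.sum_prod_type' (f := f)]
  exact Equiv.sum_comp (Equiv.sumArrowEquivProdArrow A B (ZMod 2)) (fun p => f p.1 p.2)

lemma Law.M_add (L1 L2 : Law) : (L1.add L2).M = L1.M * L2.M := by
  rw [Law.M_eq, Law.M_eq, Law.M_eq, Law.N_add]
  have h1 : ∑ e : (L1.add L2).S → ZMod 2, ∑ h : (L1.add L2).S → ZMod 2,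
      ex ((L1.add L2).val e h) =
      (∑ e : L1.S → ZMod 2, ∑ h : L1.S → ZMod 2, ex (L1.val e h)) *
      (∑ e : L2.S → ZMod 2, ∑ h : L2.S → ZMod 2, ex (L2.val e h)) := by
    have h2 : ∀ e : L1.S ⊕ L2.S → ZMod 2, ∑ h : L1.S ⊕ L2.S → ZMod 2,
        ex ((L1.add L2).val e h) =
        (∑ h : L1.S → ZMod 2, ex (L1.val (fun s => e (Sum.inl s)) h)) *
        (∑ h : L2.S → ZMod 2, ex (L2.val (fun s => e (Sum.inr s)) h)) := by
      intro e
      simp_rw [Law.val_add, ← ex_mul]
      rw [sum_sum_arrow (fun x y => ex (L1.val (fun s => e (Sum.inl s)) x) *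
        ex (L2.val (fun s => e (Sum.inr s)) y))]
      rw [Finset.sum_mul_sum]
    calc ∑ e : L1.S ⊕ L2.S → ZMod 2, ∑ h : L1.S ⊕ L2.S → ZMod 2, ex ((L1.add L2).val e h)
        = ∑ e : L1.S ⊕ L2.S → ZMod 2,
          (∑ h : L1.S → ZMod 2, ex (L1.val (fun s => e (Sum.inl s)) h)) *
          (∑ h : L2.S → ZMod 2, ex (L2.val (fun s => e (Sum.inr s)) h)) :=
          Finset.sum_congr rfl (fun e _ => h2 e)
      _ = ∑ x : L1.S → ZMod 2, ∑ y : L2.S → ZMod 2,
          (∑ h : L1.S → ZMod 2, ex (L1.val x h)) * (∑ h : L2.S → ZMod 2, ex (L2.val y h)) :=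
          sum_sum_arrow (fun x y =>
          (∑ h : L1.S → ZMod 2, ex (L1.val x h)) * (∑ h : L2.S → ZMod 2, ex (L2.val y h)))
      _ = _ := by rw [Finset.sum_mul_sum]
  rw [h1]
  have hN1 := L1.N_pos
  have hN2 := L2.N_pos
  have : C (1 / (L1.N * L2.N * (L1.N * L2.N))) =
      C (1 / (L1.N * L1.N)) * C (1 / (L2.N * L2.N)) := by
    rw [← map_mul]; congr 1; field_simp
  rw [this]; ring

lemma Law.K_add (L1 L2 : Law) : (L1.add L2).K = L1.K + L2.K := by
  unfold Law.K
  rw [Law.M_add, logD_mul _ _ L1.constantCoeff_M_ne L2.constantCoeff_M_ne]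

lemma Law.val_scale (L : Law) (a : ℝ) (e h : L.S → ZMod 2) :
    (L.scale a).val e h = a * L.val e h := by
  unfold Law.val
  rw [Finset.mul_sum]
  apply Finset.sum_congr rfl
  intro s _
  show chi (e s) * (a * L.c s (h (L.g s))) = _
  ring

lemma Law.m_scale (L : Law) (a : ℝ) (n : ℕ) : (L.scale a).m n = a ^ n * L.m n := by
  have h1 : ∑ e : (L.scale a).S → ZMod 2, ∑ h : (L.scale a).S → ZMod 2, (L.scale a).val e h ^ n =
      a ^ n * ∑ e : L.S → ZMod 2, ∑ h : L.S → ZMod 2, L.val e h ^ n := by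
    rw [Finset.mul_sum]
    apply Finset.sum_congr rfl
    intro e _
    rw [Finset.mul_sum]
    apply Finset.sum_congr rfl
    intro h _
    rw [L.val_scale, mul_pow]
  rw [Law.m, h1, Law.m, mul_div_assoc]
  rfl

lemma Law.M_scale (L : Law) (a : ℝ) : (L.scale a).M = rescale a L.M := by
  ext n
  rw [coeff_rescale, Law.coeff_M, Law.coeff_M, Law.m_scale]; ring

lemma Law.coeff_K_scale (L : Law) (a : ℝ) (n : ℕ) :
    coeff n (L.scale a).K = a ^ (n + 1) * coeff n L.K := by
  unfold Law.K
  rw [Law.M_scale, coeff_logD_rescale _ L.constantCoeff_M_ne]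

lemma Law.coeff_K_even (L : Law) (n : ℕ) (hn : Even n) : coeff n L.K = 0 := by
  have h1 : rescale (-1 : ℝ) L.M = L.M := by
    ext k
    rw [coeff_rescale, Law.coeff_M]
    rcases Nat.even_or_odd k with hk | hk
    · rw [hk.neg_one_pow, one_mul]
    · rw [L.m_odd k hk]; simp
  have h2 := coeff_logD_rescale L.M L.constantCoeff_M_ne (-1) n
  rw [h1, (Even.add_one hn).neg_one_pow] at h2
  unfold Law.K
  linarith

lemma Law.M_zero : Law.zero.M = 1 := by
  ext n
  rw [Law.coeff_M, coeff_one]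
  have hval : ∀ e h : Law.zero.S → ZMod 2, Law.zero.val e h = 0 := by
    intro e h
    unfold Law.val
    exact Finset.sum_eq_zero (fun s _ => s.elim)
  rcases Nat.eq_zero_or_pos n with h | h
  · subst h; rw [Law.m_zero]; simp
  · rw [if_neg (by omega), Law.m]
    simp_rw [hval]
    rw [zero_pow (by omega)]; simp

lemma Law.K_zero : Law.zero.K = 0 := by
  unfold Law.K; rw [Law.M_zero, logD_one]

/-- The recurrence. -/
lemma Law.recurrence (L : Law) (n : ℕ) :
    L.m (n + 1) / n.factorial =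
      ∑ p ∈ Finset.HasAntidiagonal.antidiagonal n, coeff p.1 L.K * (L.m p.2 / p.2.factorial) := by
  have h := logD_mul_self L.M L.constantCoeff_M_ne
  have h1 := congrArg (coeff n) h
  rw [coeff_mul, coeff_derivative, Law.coeff_M, Nat.factorial_succ] at h1
  simp_rw [Law.coeff_M] at h1
  unfold Law.K
  rw [h1]
  push_cast
  have : (n.factorial : ℝ) ≠ 0 := by positivity
  have : (n + 1 : ℝ) ≠ 0 := by positivity
  field_simp

end Run7.h545
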