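import Mathlib
import Pool.Agent.Run7.h545.Series
import Pool.Agent.Run7.h545.Elim
import Pool.Agent.Run7.h545.PTE

/-!
# Laws whose cumulants have prescribed signs
-/

set_option autoImplicit false

namespace Run7.h545

open Finset PowerSeries

/-- The series of the hyperbolic cosine. -/
noncomputable def ch : PowerSeries ℝ := C (1 / 2) * (ex 1 + ex (-1))

/-- The series of the hyperbolic sine. -/
noncomputable def sh : PowerSeries ℝ := C (1 / 2) * (ex 1 - ex (-1))

lemma half_two : (C (1 / 2 : ℝ) : PowerSeries ℝ) * 2 = 1 := by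
  have : (2 : PowerSeries ℝ) = C (2 : ℝ) := (map_ofNat (C (R := ℝ)) 2).symm
  rw [this, ← map_mul]; norm_num

lemma constantCoeff_ch : constantCoeff ch = 1 := by
  simp [ch, constantCoeff_ex]; norm_num

lemma derivative_ch : d⁄dX ℝ ch = sh := by
  unfold ch sh
  rw [Derivation.leibniz, derivative_C, map_add, derivative_ex, derivative_ex]
  simp only [smul_eq_mul, map_one, map_neg]
  ring

lemma derivative_sh : d⁄dX ℝ sh = ch := by
  unfold ch sh
  rw [Derivation.leibniz, derivative_C, map_sub, derivative_ex, derivative_ex]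
  simp only [smul_eq_mul, map_one, map_neg]
  ring

/-- The series of the hyperbolic tangent. -/
noncomputable def th : PowerSeries ℝ := logD ch

lemma th_mul_ch : th * ch = sh := by
  rw [th, logD_mul_self ch (by rw [constantCoeff_ch]; exact one_ne_zero), derivative_ch]

lemma derivative_th : d⁄dX ℝ th = 1 - th * th := by
  have h1 := congrArg (d⁄dX ℝ) th_mul_ch
  rw [Derivation.leibniz, derivative_ch, derivative_sh] at h1
  simp only [smul_eq_mul] at h1
  rw [← th_mul_ch] at h1
  have h2 := PowerSeries.mul_inv_cancel ch (by rw [constantCoeff_ch]; exact one_ne_zero)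
  linear_combination ch⁻¹ * h1 + (1 - th * th - d⁄dX ℝ th) * h2

lemma rescale_ex (a b : ℝ) : rescale a (ex b) = ex (a * b) := by
  ext n
  rw [coeff_rescale, coeff_ex, coeff_ex, mul_pow]; ring

lemma rescale_ch (a : ℝ) : rescale a ch = C (1 / 2) * (ex a + ex (-a)) := by
  unfold ch
  rw [map_mul, map_add, rescale_ex, rescale_ex, mul_one, mul_neg_one]
  congr 1
  ext n
  rw [coeff_rescale, coeff_C]
  split_ifs with h
  · subst h; simp
  · simp

lemma coeff_th_even (n : ℕ) (hn : Even n) : coeff n th = 0 := by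
  have h1 : rescale (-1 : ℝ) ch = ch := by
    rw [rescale_ch]; unfold ch; rw [neg_neg, add_comm]
  have h2 := coeff_logD_rescale ch (by rw [constantCoeff_ch]; exact one_ne_zero) (-1) n
  rw [h1, (Even.add_one hn).neg_one_pow] at h2
  unfold th
  linarith

lemma coeff_th_one : coeff 1 th = 1 := by
  have h := congrArg (coeff 0) derivative_th
  rw [coeff_derivative, map_sub, coeff_one, if_pos rfl] at h
  simp only [coeff_zero_eq_constantCoeff, map_mul] at h
  have h0 : constantCoeff th = 0 := by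
    rw [← coeff_zero_eq_constantCoeff_apply]; exact coeff_th_even 0 (by simp)
  rw [h0] at h
  simpa using h

lemma coeff_th_odd (k : ℕ) : 0 < (-1 : ℝ) ^ k * coeff (2 * k + 1) th := by
  induction k using Nat.strong_induction_on with
  | _ k ih =>
    rcases Nat.eq_zero_or_pos k with hk | hk
    · subst hk; simp [coeff_th_one]
    · have h := congrArg (coeff (2 * k)) derivative_th
      rw [coeff_derivative, map_sub, coeff_one, if_neg (by omega), coeff_mul] at h
      have hterm : ∀ p ∈ Finset.HasAntidiagonal.antidiagonal (2 * k),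
          0 ≤ (-1 : ℝ) ^ (k - 1) * (coeff p.1 th * coeff p.2 th) := by
        intro p hp
        rw [Finset.HasAntidiagonal.mem_antidiagonal] at hp
        rcases Nat.even_or_odd p.1 with h1 | h1
        · rw [coeff_th_even _ h1]; simp
        · obtain ⟨a, ha⟩ := h1
          have hb : ∃ b, p.2 = 2 * b + 1 := ⟨k - 1 - a, by omega⟩
          obtain ⟨b, hb⟩ := hb
          have hab : k - 1 = a + b := by omega
          have ha' := ih a (by omega)
          have hb' := ih b (by omega)
          rw [ha, hb, hab, pow_add]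
          have := mul_pos ha' hb'
          nlinarith
      have hpos : 0 < ∑ p ∈ Finset.HasAntidiagonal.antidiagonal (2 * k),
          (-1 : ℝ) ^ (k - 1) * (coeff p.1 th * coeff p.2 th) := by
        apply Finset.sum_pos' hterm
        refine ⟨(1, 2 * k - 1), ?_, ?_⟩
        · rw [Finset.HasAntidiagonal.mem_antidiagonal]; omega
        · have e1 : 2 * k - 1 = 2 * (k - 1) + 1 := by omega
          simp only
          rw [coeff_th_one, e1, one_mul]
          exact ih (k - 1) (by omega)
      rw [← Finset.mul_sum] at hpos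
      have e2 : (-1 : ℝ) ^ k = - (-1 : ℝ) ^ (k - 1) := by
        have : k = (k - 1) + 1 := by omega
        conv_lhs => rw [this]
        rw [pow_succ]; ring
      have hk1 : (0 : ℝ) < ((2 * k : ℕ) : ℝ) + 1 := by positivity
      have h3 : (-1 : ℝ) ^ k * coeff (2 * k + 1) th * (((2 * k : ℕ) : ℝ) + 1) =
          (-1 : ℝ) ^ (k - 1) * ∑ p ∈ Finset.HasAntidiagonal.antidiagonal (2 * k),
            coeff p.1 th * coeff p.2 th := by
        rw [e2]
        linear_combination (- (-1 : ℝ) ^ (k - 1)) * h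
      have h4 : 0 < (-1 : ℝ) ^ k * coeff (2 * k + 1) th * (((2 * k : ℕ) : ℝ) + 1) := by
        rw [h3]; exact hpos
      exact (mul_pos_iff_of_pos_right hk1).mp h4

/-! ### Pure sign sums -/

/-- The moment series of `∑ ε_s c_s`. -/
noncomputable def PP {S : Type*} [Fintype S] (c : S → ℝ) : PowerSeries ℝ :=
  ∏ s, rescale (c s) ch

lemma constantCoeff_rescale_ch (a : ℝ) : constantCoeff (rescale a ch) = 1 := by
  rw [← coeff_zero_eq_constantCoeff_apply, coeff_rescale]
  simp [constantCoeff_ch]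

lemma constantCoeff_PP {S : Type*} [Fintype S] (c : S → ℝ) : constantCoeff (PP c) = 1 := by
  unfold PP
  rw [map_prod]
  exact Finset.prod_eq_one (fun s _ => constantCoeff_rescale_ch (c s))

lemma coeff_logD_PP {S : Type*} [Fintype S] (c : S → ℝ) (n : ℕ) :
    coeff n (logD (PP c)) = coeff n th * ∑ s, c s ^ (n + 1) := by
  unfold PP
  rw [logD_prod _ _ (fun s _ => by rw [constantCoeff_rescale_ch]; exact one_ne_zero), map_sum,
    Finset.mul_sum]
  apply Finset.sum_congr rfl
  intro s _
  rw [coeff_logD_rescale ch (by rw [constantCoeff_ch]; exact one_ne_zero), th]; ring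

lemma sum_ex_eq {S : Type*} [Fintype S] [DecidableEq S] (c : S → ℝ) :
    ∑ e : S → ZMod 2, ex (∑ s, chi (e s) * c s) =
      C (Fintype.card (S → ZMod 2) : ℝ) * PP c := by
  have h1 : ∀ e : S → ZMod 2, ex (∑ s, chi (e s) * c s) = ∏ s, ex (chi (e s) * c s) :=
    fun e => ex_sum _ _
  simp_rw [h1]
  have h2 : ∏ s : S, ∑ z : ZMod 2, ex (chi z * c s) =
      ∑ e : S → ZMod 2, ∏ s, ex (chi (e s) * c s) := by
    rw [Finset.prod_univ_sum, Fintype.piFinset_univ]
  rw [← h2]
  have h3 : ∀ s : S, ∑ z : ZMod 2, ex (chi z * c s) = C 2 * rescale (c s) ch := by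
    intro s
    have : ∑ z : ZMod 2, ex (chi z * c s) = ex (chi 0 * c s) + ex (chi 1 * c s) := Fin.sum_univ_two _
    rw [this, rescale_ch, chi_zero, chi_one, one_mul, neg_one_mul, ← mul_assoc, ← map_mul]
    norm_num
  simp_rw [h3]
  rw [Finset.prod_mul_distrib, Finset.prod_const, ← map_pow, PP]
  congr 2
  simp [ZMod.card]

/-- The mixture of two pure sign sums. -/
noncomputable def two {S : Type} [Fintype S] [DecidableEq S] (s0 : S) (c0 c1 : S → ℝ) : Law where
  S := S
  g := fun _ => s0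
  c := fun s z => if z = 0 then c0 s else c1 s

lemma M_two {S : Type} [Fintype S] [DecidableEq S] (s0 : S) (c0 c1 : S → ℝ) :
    (two s0 c0 c1).M = C (1 / 2) * (PP c0 + PP c1) := by
  set L := two s0 c0 c1 with hL
  have hN : L.N = (Fintype.card (S → ZMod 2) : ℝ) := rfl
  have hNpos := L.N_pos
  have h1 : ∀ (e : S → ZMod 2) (n : ℕ), ∑ h : S → ZMod 2, L.val e h ^ n =
      L.N * (((∑ s, chi (e s) * c0 s) ^ n + (∑ s, chi (e s) * c1 s) ^ n) / 2) := by
    intro e n
    have := sum_prod_bits (fun i : S => (Pi.single i (1 : ZMod 2) : S → ZMod 2)) 1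
      (strong_single 1) {s0} (by simp)
      (fun _ z => (∑ s, chi (e s) * (if z = 0 then c0 s else c1 s)) ^ n)
    simp only [Finset.prod_singleton, bitz_single] at this
    have e1 : ∀ h : S → ZMod 2, L.val e h =
        ∑ s, chi (e s) * (if h s0 = 0 then c0 s else c1 s) := fun h => rfl
    rw [hN]
    simp_rw [e1]
    rw [this]
    simp
  ext n
  rw [Law.coeff_M, Law.m, coeff_C_mul, map_add]
  have h2 : ∑ e : L.S → ZMod 2, ∑ h : L.S → ZMod 2, L.val e h ^ n =
      L.N * ((∑ e : S → ZMod 2, (∑ s, chi (e s) * c0 s) ^ n +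
        ∑ e : S → ZMod 2, (∑ s, chi (e s) * c1 s) ^ n) / 2) := by
    rw [← Finset.sum_add_distrib, Finset.sum_div, Finset.mul_sum]
    exact Finset.sum_congr rfl (fun e _ => h1 e n)
  rw [h2]
  have h3 : ∀ c : S → ℝ, ∑ e : S → ZMod 2, (∑ s, chi (e s) * c s) ^ n =
      n.factorial * (L.N * coeff n (PP c)) := by
    intro c
    have := congrArg (coeff n) (sum_ex_eq c)
    rw [map_sum, coeff_C_mul] at this
    simp only [coeff_ex] at this
    rw [← Finset.sum_div] at this
    rw [hN, ← this]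
    have : (n.factorial : ℝ) ≠ 0 := by positivity
    field_simp
  rw [h3, h3, ← Law.N]
  have : (n.factorial : ℝ) ≠ 0 := by positivity
  field_simp

/-! ### Mixtures -/

lemma logD_eq_of (K f : PowerSeries ℝ) (hf : constantCoeff f ≠ 0) (h : K * f = d⁄dX ℝ f) :
    logD f = K := by
  unfold logD
  rw [← h, mul_assoc, PowerSeries.mul_inv_cancel f hf, mul_one]

lemma mixture (P Q : PowerSeries ℝ) (hP : constantCoeff P = 1) (hQ : constantCoeff Q = 1) :
    ∃ τ : PowerSeries ℝ, constantCoeff τ = 0 ∧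
      d⁄dX ℝ τ = C (1 / 2) * (logD Q - logD P) * (1 - τ * τ) ∧
      logD (C (1 / 2) * (P + Q)) =
        C (1 / 2) * (logD P + logD Q) + C (1 / 2) * ((logD Q - logD P) * τ) := by
  have hPQ : constantCoeff (P + Q) ≠ 0 := by
    rw [map_add, hP, hQ]; norm_num
  have hW := PowerSeries.mul_inv_cancel (P + Q) hPQ
  have hP' := logD_mul_self P (by rw [hP]; exact one_ne_zero)
  have hQ' := logD_mul_self Q (by rw [hQ]; exact one_ne_zero)
  have hh := half_two
  refine ⟨(Q - P) * (P + Q)⁻¹, ?_, ?_, ?_⟩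
  · rw [map_mul, map_sub, hP, hQ]; simp
  · rw [Derivation.leibniz, derivative_inv', map_sub, map_add, ← hP', ← hQ']
    simp only [smul_eq_mul]
    set W := (P + Q)⁻¹ with hWdef
    set KP := logD P
    set KQ := logD Q
    set H : PowerSeries ℝ := C (1 / 2)
    linear_combination (-(KQ * Q - KP * P) * W + H * (KQ - KP) * ((P + Q) * W + 1)) * hW +
      (-(2 * P * Q * W ^ 2 * (KQ - KP))) * hh
  · apply logD_eq_of
    · rw [map_mul, map_add, hP, hQ]; norm_num
    · rw [Derivation.leibniz, derivative_C, map_add, ← hP', ← hQ']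
      simp only [smul_eq_mul]
      set W := (P + Q)⁻¹ with hWdef
      set KP := logD P
      set KQ := logD Q
      set H : PowerSeries ℝ := C (1 / 2)
      linear_combination (H * H * (KQ - KP) * (Q - P)) * hW + (H * (KP * P + KQ * Q)) * hh

lemma tau_coeffs (U τ : PowerSeries ℝ) (q : ℕ) (hq : 1 ≤ q) (hU : ∀ n < q, coeff n U = 0)
    (h0 : constantCoeff τ = 0) (hτ : d⁄dX ℝ τ = C (1 / 2) * U * (1 - τ * τ)) :
    (∀ n ≤ q, coeff n τ = 0) ∧
      ∀ n, q ≤ n → n ≤ q + 2 → coeff (n + 1) τ = coeff n U / (2 * (n + 1)) := by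
  have hUd : (X : PowerSeries ℝ) ^ q ∣ U := X_pow_dvd_iff.mpr hU
  have h1 : ∀ n ≤ q, coeff n τ = 0 := by
    intro n hn
    rcases Nat.eq_zero_or_pos n with h | h
    · subst h; rw [coeff_zero_eq_constantCoeff_apply]; exact h0
    · obtain ⟨k, rfl⟩ : ∃ k, n = k + 1 := ⟨n - 1, by omega⟩
      have h2 := congrArg (coeff k) hτ
      have h3 : coeff k (C (1 / 2) * U * (1 - τ * τ)) = 0 := by
        have : (X : PowerSeries ℝ) ^ q ∣ C (1 / 2) * U * (1 - τ * τ) :=
          Dvd.dvd.mul_right (Dvd.dvd.mul_left hUd _) _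
        exact X_pow_dvd_iff.mp this k (by omega)
      rw [h3, coeff_derivative] at h2
      have : (k + 1 : ℝ) ≠ 0 := by positivity
      exact (mul_eq_zero.mp h2).resolve_right this
  refine ⟨h1, ?_⟩
  have hτd : (X : PowerSeries ℝ) ^ (q + 1) ∣ τ := X_pow_dvd_iff.mpr (fun n hn => h1 n (by omega))
  intro n hn1 hn2
  have h2 := congrArg (coeff n) hτ
  have h3 : coeff n (C (1 / 2) * (U * (τ * τ))) = 0 := by
    have : (X : PowerSeries ℝ) ^ (q + (q + 1 + (q + 1))) ∣ C (1 / 2) * (U * (τ * τ)) := by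
      apply Dvd.dvd.mul_left
      rw [pow_add, pow_add]
      exact mul_dvd_mul hUd (mul_dvd_mul hτd hτd)
    exact X_pow_dvd_iff.mp this n (by omega)
  have h4 : C (1 / 2) * U * (1 - τ * τ) = C (1 / 2) * U - C (1 / 2) * (U * (τ * τ)) := by ring
  rw [h4, map_sub, h3, coeff_derivative, coeff_C_mul] at h2
  have : (n + 1 : ℝ) ≠ 0 := by positivity
  field_simp
  linarith

lemma Utau_coeffs (U τ : PowerSeries ℝ) (q : ℕ) (hq : 1 ≤ q) (hU : ∀ n < q, coeff n U = 0)
    (hU1 : coeff (q + 1) U = 0)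
    (h0 : constantCoeff τ = 0) (hτ : d⁄dX ℝ τ = C (1 / 2) * U * (1 - τ * τ)) :
    coeff (2 * q + 1) (U * τ) = coeff q U ^ 2 / (2 * (q + 1)) ∧
    coeff (2 * q + 3) (U * τ) = coeff q U * coeff (q + 2) U *
      (1 / (2 * (q + 3)) + 1 / (2 * (q + 1))) := by
  obtain ⟨h1, h2⟩ := tau_coeffs U τ q hq hU h0 hτ
  obtain ⟨U1, hU1'⟩ := X_pow_dvd_iff.mpr hU
  obtain ⟨τ1, hτ1'⟩ : (X : PowerSeries ℝ) ^ (q + 1) ∣ τ :=
    X_pow_dvd_iff.mpr (fun n hn => h1 n (by omega))
  have hprod : U * τ = X ^ (2 * q + 1) * (U1 * τ1) := by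
    rw [hU1', hτ1']; ring
  have cU : ∀ d, coeff d U1 = coeff (d + q) U := by
    intro d; rw [hU1', coeff_X_pow_mul]
  have cτ : ∀ d, coeff d τ1 = coeff (d + (q + 1)) τ := by
    intro d; rw [hτ1', coeff_X_pow_mul]
  have e0 : coeff 0 U1 = coeff q U := by rw [cU, zero_add]
  have e1 : coeff 1 U1 = 0 := by rw [cU, add_comm]; exact hU1
  have e2 : coeff 2 U1 = coeff (q + 2) U := by rw [cU, add_comm]
  have f0 : coeff 0 τ1 = coeff q U / (2 * (q + 1)) := by
    rw [cτ, zero_add]; exact h2 q le_rfl (by omega)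
  have f2 : coeff 2 τ1 = coeff (q + 2) U / (2 * (q + 3)) := by
    rw [cτ]
    have : 2 + (q + 1) = (q + 2) + 1 := by omega
    rw [this, h2 (q + 2) (by omega) le_rfl]
    push_cast; ring_nf
  constructor
  · have := coeff_X_pow_mul (U1 * τ1) (2 * q + 1) 0
    rw [zero_add] at this
    rw [hprod, this, coeff_mul, Finset.Nat.antidiagonal_zero, Finset.sum_singleton, e0, f0]
    ring
  · have := coeff_X_pow_mul (U1 * τ1) (2 * q + 1) 2
    have e3 : 2 * q + 3 = 2 + (2 * q + 1) := by omega
    rw [hprod, e3, this, coeff_mul]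
    have e4 : Finset.HasAntidiagonal.antidiagonal 2 = {(0, 2), (1, 1), (2, 0)} := by decide
    rw [e4]
    rw [Finset.sum_insert (by decide), Finset.sum_insert (by decide), Finset.sum_singleton]
    simp only
    rw [e0, e1, e2, f0, f2]
    ring

end Run7.h545
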