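import Mathlib
import Pool.Agent.Run7.h545.Key

/-!
# Laws with Gaussian moments
-/

set_option autoImplicit false

namespace Run7.h545

open Finset PowerSeries

/-- The sequences of (normalised) cumulants of laws. -/
def Ach : Set (ℕ → ℝ) := {κ | ∃ L : Law, ∀ k, κ k = coeff (2 * k + 1) L.K}

lemma semi_Ach : Semi Ach where
  add := by
    rintro κ ⟨L, hL⟩ κ' ⟨L', hL'⟩
    refine ⟨L.add L', fun k => ?_⟩
    rw [Law.K_add, map_add, ← hL, ← hL']
  scale := by
    rintro κ ⟨L, hL⟩ x hx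
    refine ⟨L.scale (Real.sqrt x), fun k => ?_⟩
    rw [Law.coeff_K_scale, ← hL]
    congr 1
    have : 2 * k + 1 + 1 = 2 * (k + 1) := by ring
    rw [this, pow_mul, Real.sq_sqrt hx.le]

lemma exists_large (a b : ℝ) (hb : 0 < b) : ∃ m : ℕ, 0 < (m + 1 : ℝ) * a + (m + 1 : ℝ) ^ 2 * b := by
  obtain ⟨m, hm⟩ := exists_nat_ge (|a| / b)
  refine ⟨m, ?_⟩
  have h1 : |a| ≤ m * b := (div_le_iff₀ hb).mp hm
  have h2 : -a ≤ |a| := neg_le_abs a
  have h3 : (0 : ℝ) < (m : ℝ) + 1 := by positivity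
  have h4 : 0 < a + (m + 1 : ℝ) * b := by nlinarith
  calc (0 : ℝ) < (m + 1 : ℝ) * (a + (m + 1 : ℝ) * b) := mul_pos h3 h4
    _ = _ := by ring

section mix

variable {S : Type} [Fintype S] [DecidableEq S]

/-- The mixture with `m + 1` copies. -/
noncomputable def mixL (s0 : S) (c0 c1 : S → ℝ) (m : ℕ) : Law :=
  two (S := S × Fin (m + 1)) (s0, 0) (fun s => c0 s.1) (fun s => c1 s.1)

omit [DecidableEq S] in
lemma coeff_logD_copies (c : S → ℝ) (m n : ℕ) :
    coeff n (logD (PP (fun s : S × Fin (m + 1) => c s.1))) =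
      (m + 1 : ℝ) * (coeff n th * ∑ s, c s ^ (n + 1)) := by
  rw [coeff_logD_PP, Fintype.sum_prod_type]
  simp only [Finset.sum_const, Finset.card_univ, Fintype.card_fin, nsmul_eq_mul]
  rw [← Finset.mul_sum]
  push_cast
  ring

lemma mix_coeffs (s0 : S) (c0 c1 : S → ℝ) (q : ℕ) (hq : 1 ≤ q) (hqo : Odd q)
    (hD : ∀ n < q, Odd n → ∑ s, c1 s ^ (n + 1) = ∑ s, c0 s ^ (n + 1)) (m : ℕ) :
    coeff (2 * q + 1) (mixL s0 c0 c1 m).K =
      (m + 1 : ℝ) * (1 / 2 * (coeff (2 * q + 1) th *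
        (∑ s, c0 s ^ (2 * q + 2) + ∑ s, c1 s ^ (2 * q + 2)))) +
      (m + 1 : ℝ) ^ 2 * (1 / 2 * ((coeff q th * (∑ s, c1 s ^ (q + 1) - ∑ s, c0 s ^ (q + 1))) ^ 2
        / (2 * (q + 1)))) ∧
    coeff (2 * q + 3) (mixL s0 c0 c1 m).K =
      (m + 1 : ℝ) * (1 / 2 * (coeff (2 * q + 3) th *
        (∑ s, c0 s ^ (2 * q + 4) + ∑ s, c1 s ^ (2 * q + 4)))) +
      (m + 1 : ℝ) ^ 2 * (1 / 2 * ((coeff q th * coeff (q + 2) th) *
        ((∑ s, c1 s ^ (q + 1) - ∑ s, c0 s ^ (q + 1)) *
          (∑ s, c1 s ^ (q + 3) - ∑ s, c0 s ^ (q + 3))) *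
        (1 / (2 * (q + 3)) + 1 / (2 * (q + 1))))) := by
  set P := PP (fun s : S × Fin (m + 1) => c0 s.1) with hP
  set Q := PP (fun s : S × Fin (m + 1) => c1 s.1) with hQ
  obtain ⟨τ, hτ0, hτ1, hτ2⟩ := mixture P Q (constantCoeff_PP _) (constantCoeff_PP _)
  have hK : (mixL s0 c0 c1 m).K =
      C (1 / 2) * (logD P + logD Q) + C (1 / 2) * ((logD Q - logD P) * τ) := by
    rw [← hτ2, Law.K, mixL, M_two]
  set U := logD Q - logD P with hU
  have cU : ∀ n, coeff n U = (m + 1 : ℝ) *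
      (coeff n th * (∑ s, c1 s ^ (n + 1) - ∑ s, c0 s ^ (n + 1))) := by
    intro n
    rw [hU, map_sub, coeff_logD_copies, coeff_logD_copies]; ring
  have hU0 : ∀ n < q, coeff n U = 0 := by
    intro n hn
    rw [cU]
    rcases Nat.even_or_odd n with h | h
    · rw [coeff_th_even n h]; ring
    · rw [hD n hn h]; ring
  have hU1 : coeff (q + 1) U = 0 := by
    rw [cU, coeff_th_even (q + 1) (Odd.add_one hqo)]; ring
  obtain ⟨h1, h2⟩ := Utau_coeffs U τ q hq hU0 hU1 hτ0 hτ1
  constructor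
  · rw [hK, map_add, coeff_C_mul, coeff_C_mul, map_add, h1, cU, coeff_logD_copies,
      coeff_logD_copies]
    ring
  · rw [hK, map_add, coeff_C_mul, coeff_C_mul, map_add, h2, cU, cU, coeff_logD_copies,
      coeff_logD_copies]
    have e : q + 2 + 1 = q + 3 := by omega
    rw [e]
    ring

end mix

/-- The index set of the two multisets of the finite difference. -/
abbrev PS (p : ℕ) : Type := Σ j : Fin (p + 1), Fin (p.choose j)

/-- Square roots of the even multiset. -/
noncomputable def pc1 (p : ℕ) (s : PS p) : ℝ :=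
  if Even (p - (s.1 : ℕ)) then Real.sqrt (s.1 : ℕ) else 0

/-- Square roots of the odd multiset. -/
noncomputable def pc0 (p : ℕ) (s : PS p) : ℝ :=
  if Even (p - (s.1 : ℕ)) then 0 else Real.sqrt (s.1 : ℕ)

lemma sum_pc (p j : ℕ) (hj : 1 ≤ j) :
    ∑ s, pc1 p s ^ (2 * j) - ∑ s, pc0 p s ^ (2 * j) = DD p (fun x => x ^ j) := by
  rw [← Finset.sum_sub_distrib, Fintype.sum_sigma, DD, ← Fin.sum_univ_eq_sum_range
    (fun k => (-1 : ℝ) ^ (p - k) * (p.choose k : ℝ) * (k : ℝ) ^ j) (p + 1)]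
  apply Finset.sum_congr rfl
  intro i _
  have h1 : ∀ y : Fin (p.choose i), pc1 p ⟨i, y⟩ ^ (2 * j) - pc0 p ⟨i, y⟩ ^ (2 * j) =
      (-1 : ℝ) ^ (p - (i : ℕ)) * ((i : ℕ) : ℝ) ^ j := by
    intro y
    unfold pc1 pc0
    simp only
    rcases Nat.even_or_odd (p - (i : ℕ)) with h | h
    · rw [if_pos h, if_pos h, h.neg_one_pow, zero_pow (by omega), pow_mul,
        Real.sq_sqrt (by positivity)]
      ring
    · rw [if_neg (Nat.not_even_iff_odd.mpr h), if_neg (Nat.not_even_iff_odd.mpr h),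
        h.neg_one_pow, zero_pow (by omega), pow_mul, Real.sq_sqrt (by positivity)]
      ring
  simp_rw [h1]
  rw [Finset.sum_const, Finset.card_univ, Fintype.card_fin, nsmul_eq_mul]
  ring

lemma sum_pc_even (p : ℕ) (n : ℕ) (hn : Odd n) :
    ∑ s, pc1 p s ^ (n + 1) - ∑ s, pc0 p s ^ (n + 1) = DD p (fun x => x ^ ((n + 1) / 2)) := by
  obtain ⟨k, hk⟩ := hn
  have h1 : n + 1 = 2 * (k + 1) := by omega
  have h2 : (n + 1) / 2 = k + 1 := by omega
  rw [h2, h1]
  exact sum_pc p (k + 1) (by omega)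

/-- Both signs. -/
theorem mix_signs (q : ℕ) (hqo : Odd q) :
    (∃ κ ∈ Ach, 0 < κ q) ∧ (∃ κ ∈ Ach, κ (q + 1) < 0) := by
  obtain ⟨r, hr⟩ := hqo
  set p := r + 1 with hp
  have hq : q = 2 * p - 1 := by omega
  let s0 : PS p := ⟨0, ⟨0, by simp⟩⟩
  have hD : ∀ n < q, Odd n → ∑ s, pc1 p s ^ (n + 1) = ∑ s, pc0 p s ^ (n + 1) := by
    intro n hn hno
    have h := sum_pc_even p n hno
    rw [DD_pow_lt (by omega)] at h
    linarith
  have hDq : ∑ s, pc1 p s ^ (q + 1) - ∑ s, pc0 p s ^ (q + 1) = p.factorial := by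
    have h := sum_pc_even p q ⟨r, hr⟩
    have e : (q + 1) / 2 = p := by omega
    rw [e, DD_pow_self] at h
    exact h
  have hDq2 : 0 < ∑ s, pc1 p s ^ (q + 3) - ∑ s, pc0 p s ^ (q + 3) := by
    have h := sum_pc_even p (q + 2) ⟨r + 1, by omega⟩
    have e : (q + 2 + 1) / 2 = p + 1 := by omega
    rw [e] at h
    have e2 : q + 2 + 1 = q + 3 := by omega
    rw [e2] at h
    rw [h]
    exact DD_pow_succ p (by omega)
  have hfac : (0 : ℝ) < p.factorial := by positivity
  have hT1 := coeff_th_odd r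
  have hT2 := coeff_th_odd (r + 1)
  have e1 : 2 * r + 1 = q := by omega
  have e2 : 2 * (r + 1) + 1 = q + 2 := by omega
  rw [e1] at hT1
  rw [e2] at hT2
  have hTT : coeff q th * coeff (q + 2) th < 0 := by
    have h1 := mul_pos hT1 hT2
    have h2 : (-1 : ℝ) ^ r * coeff q th * ((-1) ^ (r + 1) * coeff (q + 2) th) =
        - (coeff q th * coeff (q + 2) th) := by
      have h3 : (-1 : ℝ) ^ r * (-1) ^ (r + 1) = -1 := by
        rw [← pow_add]; apply Odd.neg_one_pow; exact ⟨r, by ring⟩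
      linear_combination (coeff q th * coeff (q + 2) th) * h3
    rw [h2] at h1
    linarith
  have hTq : coeff q th ≠ 0 := by
    intro h0; rw [h0] at hT1; simp at hT1
  constructor
  · obtain ⟨m, hm⟩ := exists_large (1 / 2 * (coeff (2 * q + 1) th *
        (∑ s, pc0 p s ^ (2 * q + 2) + ∑ s, pc1 p s ^ (2 * q + 2))))
      (1 / 2 * ((coeff q th * (∑ s, pc1 p s ^ (q + 1) - ∑ s, pc0 p s ^ (q + 1))) ^ 2
        / (2 * (q + 1)))) (by
          rw [hDq]
          have : (0 : ℝ) < (coeff q th * (p.factorial : ℝ)) ^ 2 := by positivity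
          positivity)
    refine ⟨_, ⟨mixL s0 (pc0 p) (pc1 p) m, fun k => rfl⟩, ?_⟩
    rw [(mix_coeffs s0 (pc0 p) (pc1 p) q (by omega) ⟨r, hr⟩ hD m).1]
    exact hm
  · obtain ⟨m, hm⟩ := exists_large (-(1 / 2 * (coeff (2 * q + 3) th *
        (∑ s, pc0 p s ^ (2 * q + 4) + ∑ s, pc1 p s ^ (2 * q + 4)))))
      (-(1 / 2 * ((coeff q th * coeff (q + 2) th) *
        ((∑ s, pc1 p s ^ (q + 1) - ∑ s, pc0 p s ^ (q + 1)) *
          (∑ s, pc1 p s ^ (q + 3) - ∑ s, pc0 p s ^ (q + 3))) *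
        (1 / (2 * (q + 3)) + 1 / (2 * (q + 1)))))) (by
          rw [hDq]
          have h1 : 0 < -(coeff q th * coeff (q + 2) th) := by linarith
          have h2 : (0 : ℝ) < (1 / (2 * ((q : ℝ) + 3)) + 1 / (2 * ((q : ℝ) + 1))) := by positivity
          have h3 := mul_pos (mul_pos h1 (mul_pos hfac hDq2)) h2
          linarith)
    refine ⟨_, ⟨mixL s0 (pc0 p) (pc1 p) m, fun k => rfl⟩, ?_⟩
    have e3 : 2 * (q + 1) + 1 = 2 * q + 3 := by ring
    rw [e3, (mix_coeffs s0 (pc0 p) (pc1 p) q (by omega) ⟨r, hr⟩ hD m).2]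
    linarith

/-- The Bernoulli law. -/
noncomputable def bern : Law := two (S := Unit) () (fun _ => 1) (fun _ => 1)

lemma K_bern : bern.K = th := by
  unfold bern Law.K
  rw [M_two]
  have h1 : PP (fun _ : Unit => (1 : ℝ)) = ch := by
    simp [PP]
  rw [h1, th]
  congr 1
  linear_combination ch * half_two

lemma bern_signs (k : ℕ) : ∃ κ ∈ Ach, 0 < (-1 : ℝ) ^ k * κ k := by
  refine ⟨_, ⟨bern, fun k => rfl⟩, ?_⟩
  rw [K_bern]
  exact coeff_th_odd k

theorem Ach_pos (n : ℕ) (_hn : 1 ≤ n) : ∃ κ ∈ Ach, 0 < κ n := by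
  rcases Nat.even_or_odd n with h | h
  · obtain ⟨κ, hκ, hs⟩ := bern_signs n
    rw [h.neg_one_pow, one_mul] at hs
    exact ⟨κ, hκ, hs⟩
  · exact (mix_signs n h).1

theorem Ach_neg (n : ℕ) (hn : 1 ≤ n) : ∃ κ ∈ Ach, κ n < 0 := by
  rcases Nat.even_or_odd n with h | h
  · obtain ⟨k, rfl⟩ : ∃ k, n = k + 1 := ⟨n - 1, by omega⟩
    have : Odd k := by
      rcases Nat.even_or_odd k with h1 | h1
      · exact absurd h (by simp [Nat.even_add_one, h1])
      · exact h1
    exact (mix_signs k this).2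
  · obtain ⟨κ, hκ, hs⟩ := bern_signs n
    rw [h.neg_one_pow] at hs
    exact ⟨κ, hκ, by linarith⟩

/-- The moments of the standard Gaussian law. -/
def gam : ℕ → ℝ
  | 0 => 1
  | 1 => 0
  | (n + 2) => (n + 1) * gam n

lemma gam_zero : gam 0 = 1 := rfl
lemma gam_one : gam 1 = 0 := rfl
lemma gam_add_two (n : ℕ) : gam (n + 2) = (n + 1) * gam n := rfl

lemma Law.m_two (L : Law) : L.m 2 = coeff 1 L.K := by
  have h := L.recurrence 1
  have e : Finset.HasAntidiagonal.antidiagonal 1 = {(0, 1), (1, 0)} := by decide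
  rw [e, Finset.sum_insert (by decide), Finset.sum_singleton] at h
  simp only at h
  rw [L.coeff_K_even 0 (by simp), L.m_zero] at h
  simpa using h

lemma Law.K_eq_zero_of_m_two (L : Law) (h : L.m 2 = 0) : L.K = 0 := by
  have hN := L.N_pos
  have h1 : ∑ e : L.S → ZMod 2, ∑ h : L.S → ZMod 2, L.val e h ^ 2 = 0 := by
    rw [Law.m, ← Law.N, div_eq_zero_iff] at h
    exact h.resolve_right (by positivity)
  have h2 : ∀ e h : L.S → ZMod 2, L.val e h = 0 := by
    intro e h
    have h3 := (Finset.sum_eq_zero_iff_of_nonneg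
      (fun e _ => Finset.sum_nonneg (fun h _ => sq_nonneg (L.val e h)))).mp h1 e (Finset.mem_univ e)
    have h4 := (Finset.sum_eq_zero_iff_of_nonneg
      (fun h _ => sq_nonneg (L.val e h))).mp h3 h (Finset.mem_univ h)
    exact pow_eq_zero_iff (two_ne_zero) |>.mp h4
  have h3 : L.M = 1 := by
    ext n
    rw [Law.coeff_M, coeff_one]
    rcases Nat.eq_zero_or_pos n with h | h
    · subst h; rw [Law.m_zero]; simp
    · rw [if_neg (by omega), Law.m]
      simp_rw [h2]
      rw [zero_pow (by omega)]; simp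
  unfold Law.K
  rw [h3, logD_one]

lemma Law.m_two_nonneg (L : Law) : 0 ≤ L.m 2 := by
  unfold Law.m
  apply div_nonneg
  · exact Finset.sum_nonneg (fun e _ => Finset.sum_nonneg (fun h _ => sq_nonneg _))
  · positivity

lemma gauss_of_K (L : Law) (t : ℕ) (ht : 2 ≤ t) (h1 : coeff 1 L.K = 1)
    (h0 : ∀ k, 1 ≤ k → k < t - 1 → coeff (2 * k + 1) L.K = 0)
    (hn : coeff (2 * (t - 1) + 1) L.K < 0) :
    (∀ n < 2 * t, L.m n = gam n) ∧ L.m (2 * t) < gam (2 * t) := by
  have hz : ∀ i, i ≤ 2 * t - 2 → i ≠ 1 → coeff i L.K = 0 := by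
    intro i hi hi1
    rcases Nat.even_or_odd i with h | h
    · exact L.coeff_K_even i h
    · obtain ⟨k, hk⟩ := h
      rw [hk]
      exact h0 k (by omega) (by omega)
  have hmain : ∀ n < 2 * t, L.m n = gam n := by
    intro n
    induction n using Nat.strong_induction_on with
    | _ n ih =>
      intro hlt
      match n, ih, hlt with
      | 0, _, _ => exact L.m_zero
      | 1, _, _ => exact L.m_odd 1 (by decide)
      | (k + 2), ih, hlt =>
        have hr := L.recurrence (k + 1)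
        rw [Finset.sum_eq_single (1, k)] at hr
        · rw [h1, one_mul, ih k (by omega) (by omega), Nat.factorial_succ] at hr
          rw [gam_add_two]
          have hk : (k.factorial : ℝ) ≠ 0 := by positivity
          push_cast at hr
          field_simp at hr
          linarith
        · intro p hp hp1
          rw [Finset.HasAntidiagonal.mem_antidiagonal] at hp
          have : p.1 ≠ 1 := by
            intro h
            apply hp1
            ext
            · exact h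
            · simp only; omega
          rw [hz p.1 (by omega) this, zero_mul]
        · intro h
          exfalso
          apply h
          rw [Finset.HasAntidiagonal.mem_antidiagonal]
          simp only; omega
  refine ⟨hmain, ?_⟩
  obtain ⟨r, rfl⟩ : ∃ r, t = r + 1 := ⟨t - 1, by omega⟩
  have hr := L.recurrence (2 * r + 1)
  have hne : (1, 2 * r) ≠ ((2 * r + 1, 0) : ℕ × ℕ) := by
    intro h
    have := congrArg Prod.fst h
    simp only at this
    omega
  rw [← Finset.sum_subset (s₁ := {(1, 2 * r), (2 * r + 1, 0)})] at hr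
  · rw [Finset.sum_insert (by simpa using hne), Finset.sum_singleton] at hr
    simp only at hr
    have e1 : r + 1 - 1 = r := by omega
    rw [e1] at hn
    rw [h1, one_mul, hmain (2 * r) (by omega), L.m_zero, Nat.factorial_succ] at hr
    have e2 : 2 * (r + 1) = 2 * r + 1 + 1 := by ring
    have e3 : 2 * r + 1 + 1 = 2 * r + 2 := by ring
    rw [e2]
    have hg : gam (2 * r + 1 + 1) = ((2 * r : ℕ) + 1 : ℝ) * gam (2 * r) := gam_add_two (2 * r)
    rw [hg]
    have hk : (0 : ℝ) < ((2 * r).factorial : ℝ) := by positivity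
    have hk2 : (0 : ℝ) < ((2 * r : ℕ) : ℝ) + 1 := by positivity
    have h5 : L.m (2 * r + 1 + 1) = ((2 * r : ℕ) + 1 : ℝ) * gam (2 * r) +
        (((2 * r : ℕ) + 1 : ℝ) * ((2 * r).factorial : ℝ)) * coeff (2 * r + 1) L.K := by
      have h6 : L.m (2 * r + 1 + 1) = (((2 * r : ℕ) + 1 : ℝ) * ((2 * r).factorial : ℝ)) *
          (gam (2 * r) / ((2 * r).factorial : ℝ) + coeff (2 * r + 1) L.K * (1 / ((0 : ℕ).factorial : ℝ))) := by
        rw [← hr]
        push_cast
        field_simp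
      rw [h6]
      simp only [Nat.factorial_zero, Nat.cast_one, div_one, mul_one]
      field_simp
    rw [h5]
    have h7 : (((2 * r : ℕ) + 1 : ℝ) * ((2 * r).factorial : ℝ)) * coeff (2 * r + 1) L.K < 0 :=
      mul_neg_of_pos_of_neg (by positivity) hn
    linarith
  · intro p hp
    rw [Finset.HasAntidiagonal.mem_antidiagonal]
    simp only [Finset.mem_insert, Finset.mem_singleton] at hp
    rcases hp with h | h
    · rw [h]; simp only; omega
    · rw [h]; simp only
  · intro p hp hp1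
    rw [Finset.HasAntidiagonal.mem_antidiagonal] at hp
    simp only [Finset.mem_insert, Finset.mem_singleton, not_or] at hp1
    have h3 : p.1 ≠ 1 := by
      intro h
      apply hp1.1
      ext
      · exact h
      · simp only; omega
    have h4 : p.1 ≠ 2 * r + 1 := by
      intro h
      apply hp1.2
      ext
      · exact h
      · simp only; omega
    rw [hz p.1 (by omega) h3, zero_mul]

/-- **Laws with Gaussian moments.** -/
theorem exists_law (t : ℕ) (ht : 1 ≤ t) :
    ∃ L : Law, (∀ n < 2 * t, L.m n = gam n) ∧ L.m (2 * t) < gam (2 * t) := by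
  rcases Nat.eq_or_lt_of_le ht with h | h
  · subst h
    refine ⟨Law.zero, ?_, ?_⟩
    · intro n hn
      have : n = 0 ∨ n = 1 := by omega
      rcases this with h | h
      · subst h; exact Law.m_zero _
      · subst h; exact Law.m_odd _ 1 (by decide)
    · have h1 : Law.zero.m (2 * 1) = 0 := by
        rw [mul_one, Law.m_two, Law.K_zero]; simp
      rw [h1]
      have : gam (2 * 1) = 1 := by
        rw [show 2 * 1 = 0 + 2 from rfl, gam_add_two, gam_zero]; norm_num
      rw [this]; norm_num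
  · obtain ⟨κ, ⟨L, hL⟩, hz, hneg⟩ := semi_Ach.exists_neg Ach_pos Ach_neg (t - 1) (by omega)
    have hv : 0 < coeff 1 L.K := by
      rw [← Law.m_two]
      rcases L.m_two_nonneg.lt_or_eq with h1 | h1
      · exact h1
      · exfalso
        have h2 := L.K_eq_zero_of_m_two h1.symm
        rw [hL, h2] at hneg
        simp at hneg
    set a : ℝ := 1 / Real.sqrt (coeff 1 L.K) with ha
    have hsq : 0 < Real.sqrt (coeff 1 L.K) := Real.sqrt_pos.mpr hv
    have hapos : 0 < a := by rw [ha]; positivity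
    refine ⟨L.scale a, gauss_of_K _ t (by omega) ?_ ?_ ?_⟩
    · rw [Law.coeff_K_scale, ha]
      have : (1 / Real.sqrt (coeff 1 L.K)) ^ (1 + 1) = 1 / coeff 1 L.K := by
        rw [div_pow, one_pow, show 1 + 1 = 2 from rfl, Real.sq_sqrt hv.le]
      rw [this]; field_simp
    · intro k hk1 hk2
      rw [Law.coeff_K_scale, ← hL, hz k hk1 hk2, mul_zero]
    · rw [Law.coeff_K_scale, ← hL]
      exact mul_neg_of_pos_of_neg (by positivity) hneg

end Run7.h545
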