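import Mathlib
import Pool.Agent.Run7.h545.Signs

/-!
# Integrals of monomials over the unit sphere
-/

set_option autoImplicit false

namespace Run7.h545

open MeasureTheory Set Real

/-- One dimensional Gaussian integrals. -/
noncomputable def gi (n : ℕ) : ℝ := ∫ x : ℝ, x ^ n * exp (-(1 / 2) * x ^ 2)

lemma integrable_gi (n : ℕ) : Integrable (fun x : ℝ => x ^ n * exp (-(1 / 2) * x ^ 2)) := by
  have h := integrable_rpow_mul_exp_neg_mul_sq (b := 1 / 2) (by norm_num) (s := (n : ℝ))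
    (by have : (0 : ℝ) ≤ n := by positivity
        linarith)
  simpa only [rpow_natCast] using h

lemma gi_zero : gi 0 = √(2 * π) := by
  unfold gi
  have h := integral_gaussian (1 / 2)
  simp only [pow_zero, one_mul]
  rw [h]
  congr 1
  ring

lemma gi_one : gi 1 = 0 := by
  unfold gi
  have h : ∫ x : ℝ, (-x) ^ 1 * exp (-(1 / 2) * (-x) ^ 2) = ∫ x : ℝ, x ^ 1 * exp (-(1 / 2) * x ^ 2) :=
    integral_neg_eq_self (fun x : ℝ => x ^ 1 * exp (-(1 / 2) * x ^ 2)) volume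
  have h2 : ∫ x : ℝ, (-x) ^ 1 * exp (-(1 / 2) * (-x) ^ 2) =
      - ∫ x : ℝ, x ^ 1 * exp (-(1 / 2) * x ^ 2) := by
    rw [← integral_neg]
    congr 1
    funext x
    rw [neg_sq]; ring
  linarith

lemma gi_add_two (n : ℕ) : gi (n + 2) = (n + 1) * gi n := by
  have hu : ∀ x : ℝ, HasDerivAt (fun x : ℝ => x ^ (n + 1)) ((n + 1 : ℝ) * x ^ n) x := by
    intro x
    have := hasDerivAt_pow (n + 1) x
    simpa using this
  have hv : ∀ x : ℝ, HasDerivAt (fun x : ℝ => -exp (-(1 / 2) * x ^ 2))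
      (x * exp (-(1 / 2) * x ^ 2)) x := by
    intro x
    have h1 : HasDerivAt (fun x : ℝ => -(1 / 2) * x ^ 2) (-(1 / 2) * (2 * x)) x := by
      have := (hasDerivAt_pow 2 x).const_mul (-(1 / 2) : ℝ)
      simpa using this
    have h2 := (h1.exp).neg
    have e : x * exp (-(1 / 2) * x ^ 2) = -(exp (-(1 / 2) * x ^ 2) * (-(1 / 2) * (2 * x))) := by
      ring
    rw [e]
    exact h2
  have h := integral_mul_deriv_eq_deriv_mul_of_integrable
    (u := fun x : ℝ => x ^ (n + 1)) (v := fun x : ℝ => -exp (-(1 / 2) * x ^ 2))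
    (u' := fun x : ℝ => (n + 1 : ℝ) * x ^ n) (v' := fun x : ℝ => x * exp (-(1 / 2) * x ^ 2))
    (fun x _ => hu x) (fun x _ => hv x) ?_ ?_ ?_
  · have e1 : ∫ x : ℝ, x ^ (n + 1) * (x * exp (-(1 / 2) * x ^ 2)) = gi (n + 2) := by
      unfold gi
      congr 1
      funext x
      ring
    have e2 : ∫ x : ℝ, (n + 1 : ℝ) * x ^ n * -exp (-(1 / 2) * x ^ 2) = -((n + 1) * gi n) := by
      unfold gi
      rw [← integral_const_mul, ← integral_neg]
      congr 1
      funext x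
      ring
    rw [e1, e2] at h
    linarith
  · have := integrable_gi (n + 2)
    convert this using 1
    funext x
    simp only [Pi.mul_apply]
    ring
  · have := (integrable_gi n).const_mul (-(n + 1 : ℝ))
    convert this using 1
    funext x
    simp only [Pi.mul_apply]
    ring
  · have := (integrable_gi (n + 1)).neg
    convert this using 1
    funext x
    simp only [Pi.mul_apply, Pi.neg_apply]
    ring

lemma gi_eq (n : ℕ) : gi n = √(2 * π) * gam n := by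
  induction n using Nat.strong_induction_on with
  | _ n ih =>
    match n, ih with
    | 0, _ => rw [gi_zero, gam_zero, mul_one]
    | 1, _ => rw [gi_one, gam_one, mul_zero]
    | (k + 2), ih => rw [gi_add_two, gam_add_two, ih k (by omega)]; ring

/-- The Gaussian integral over the Euclidean space. -/
lemma integral_euclidean {d : ℕ} (α : Fin d → ℕ) :
    ∫ x : EuclideanSpace ℝ (Fin d), (∏ i, (x.ofLp i) ^ α i) * exp (-(1 / 2) * ‖x‖ ^ 2) =
      √(2 * π) ^ d * ∏ i, gam (α i) := by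
  rw [← (PiLp.volume_preserving_toLp (Fin d)).integral_comp
    (MeasurableEquiv.toLp 2 _).measurableEmbedding]
  have h1 : ∀ x : Fin d → ℝ, (∏ i, ((WithLp.toLp 2 x).ofLp i) ^ α i) *
      exp (-(1 / 2) * ‖WithLp.toLp 2 x‖ ^ 2) = ∏ i, (x i ^ α i * exp (-(1 / 2) * x i ^ 2)) := by
    intro x
    rw [Finset.prod_mul_distrib, ← Real.exp_sum, ← Finset.mul_sum, EuclideanSpace.norm_sq_eq]
    simp
  simp_rw [h1]
  rw [integral_fintype_prod_volume_eq_prod (fun i (y : ℝ) => y ^ α i * exp (-(1 / 2) * y ^ 2))]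
  have h2 : ∀ i, ∫ y : ℝ, y ^ α i * exp (-(1 / 2) * y ^ 2) = √(2 * π) * gam (α i) :=
    fun i => gi_eq (α i)
  simp_rw [h2]
  rw [Finset.prod_mul_distrib, Finset.prod_const, Finset.card_univ, Fintype.card_fin]

/-- The radial integral. -/
noncomputable def rad (k n : ℕ) : ℝ :=
  ∫ r : Ioi (0 : ℝ), (r : ℝ) ^ n * exp (-(1 / 2) * (r : ℝ) ^ 2) ∂(Measure.volumeIoiPow k)

lemma rad_pos (k n : ℕ) : 0 < rad k n := by
  have h1 : rad k n = ∫ y in Ioi (0 : ℝ), y ^ k • (y ^ n * exp (-(1 / 2) * y ^ 2)) := by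
    unfold rad
    simp only [Measure.volumeIoiPow, ENNReal.ofReal]
    rw [integral_withDensity_eq_integral_smul,
        integral_subtype_comap measurableSet_Ioi
          fun a : ℝ ↦ Real.toNNReal (a ^ k) • (a ^ n * exp (-(1 / 2) * a ^ 2)),
        setIntegral_congr_fun measurableSet_Ioi fun x hx ↦ ?_]
    · rw [NNReal.smul_def, Real.coe_toNNReal _ (pow_nonneg hx.out.le _)]
    · exact (measurable_subtype_coe.pow_const _).real_toNNReal
  have h2 := integral_rpow_mul_exp_neg_mul_rpow (p := 2) (q := ((k + n : ℕ) : ℝ)) (b := 1 / 2)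
    (by norm_num) (by have : (0 : ℝ) ≤ ((k + n : ℕ) : ℝ) := by positivity
                      linarith) (by norm_num)
  have h3 : ∫ y in Ioi (0 : ℝ), y ^ k • (y ^ n * exp (-(1 / 2) * y ^ 2)) =
      ∫ x in Ioi (0 : ℝ), x ^ ((k + n : ℕ) : ℝ) * exp (-(1 / 2) * x ^ (2 : ℝ)) := by
    congr 1
    funext x
    rw [rpow_natCast, rpow_two, pow_add, smul_eq_mul]
    ring
  rw [h1, h3, h2]
  have : (0 : ℝ) ≤ ((k + n : ℕ) : ℝ) := by positivity
  have h4 : 0 < Gamma ((((k + n : ℕ) : ℝ) + 1) / 2) := Gamma_pos_of_pos (by positivity)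
  positivity

/-- The Euclidean space. -/
abbrev EE (d : ℕ) : Type := EuclideanSpace ℝ (Fin d)

/-- **Moments of the sphere.** -/
theorem sphere_moments (d : ℕ) (hd : 1 ≤ d) (α : Fin d → ℕ) :
    ∫ y : Metric.sphere (0 : EuclideanSpace ℝ (Fin d)) 1,
      ∏ i, ((y : EuclideanSpace ℝ (Fin d)).ofLp i) ^ α i
        ∂(volume : Measure (EuclideanSpace ℝ (Fin d))).toSphere =
      (√(2 * π) ^ d / rad (d - 1) (∑ i, α i)) * ∏ i, gam (α i) := by
  have : Nonempty (Fin d) := ⟨⟨0, hd⟩⟩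
  have : Nontrivial (EE d) := inferInstanceAs (Nontrivial (EuclideanSpace ℝ (Fin d)))
  set μ : Measure (EE d) := volume
  have hdim : Module.finrank ℝ (EE d) = d := finrank_euclideanSpace_fin
  have h0 := integral_euclidean α
  have h1 : ∫ x : EE d, (∏ i, (x.ofLp i) ^ α i) * exp (-(1 / 2) * ‖x‖ ^ 2) =
      ∫ x : ({(0)}ᶜ : Set (EE d)), (∏ i, ((x : EE d).ofLp i) ^ α i) * exp (-(1 / 2) * ‖(x : EE d)‖ ^ 2)
        ∂(μ.comap (↑)) := by
    rw [integral_subtype_comap (measurableSet_singleton _).compl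
      fun x : EE d ↦ (∏ i, (x.ofLp i) ^ α i) * exp (-(1 / 2) * ‖x‖ ^ 2), restrict_compl_singleton]
  have h2 : ∫ x : ({(0)}ᶜ : Set (EE d)), (∏ i, ((x : EE d).ofLp i) ^ α i) * exp (-(1 / 2) * ‖(x : EE d)‖ ^ 2)
        ∂(μ.comap (↑)) =
      ∫ x : Metric.sphere (0 : EE d) 1 × Ioi (0 : ℝ), (∏ i, ((x.1 : EE d).ofLp i) ^ α i) *
        ((x.2 : ℝ) ^ (∑ i, α i) * exp (-(1 / 2) * (x.2 : ℝ) ^ 2))
        ∂μ.toSphere.prod (.volumeIoiPow (Module.finrank ℝ (EE d) - 1)) := by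
    rw [← μ.measurePreserving_homeomorphUnitSphereProd.integral_comp
        (Homeomorph.measurableEmbedding _)]
    congr 1
    funext x
    have hx : ‖(x : EE d)‖ ≠ 0 := by
      rw [norm_ne_zero_iff]; exact x.2
    rw [homeomorphUnitSphereProd_apply_fst_coe, homeomorphUnitSphereProd_apply_snd_coe,
      ← mul_assoc]
    congr 1
    have h3 : ∏ i, (WithLp.ofLp (‖(x : EE d)‖⁻¹ • (x : EE d)) i) ^ α i =
        (‖(x : EE d)‖⁻¹) ^ (∑ i, α i) * ∏ i, ((x : EE d).ofLp i) ^ α i := by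
      rw [← Finset.prod_pow_eq_pow_sum, ← Finset.prod_mul_distrib]
      apply Finset.prod_congr rfl
      intro i _
      rw [← mul_pow]
      rfl
    rw [h3, inv_pow]
    field_simp
  have h3 : ∫ x : Metric.sphere (0 : EE d) 1 × Ioi (0 : ℝ), (∏ i, ((x.1 : EE d).ofLp i) ^ α i) *
        ((x.2 : ℝ) ^ (∑ i, α i) * exp (-(1 / 2) * (x.2 : ℝ) ^ 2))
        ∂μ.toSphere.prod (.volumeIoiPow (Module.finrank ℝ (EE d) - 1)) =
      (∫ y : Metric.sphere (0 : EE d) 1, ∏ i, ((y : EE d).ofLp i) ^ α i ∂μ.toSphere) *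
        rad (d - 1) (∑ i, α i) := by
    rw [integral_prod_mul (fun y : Metric.sphere (0 : EE d) 1 => ∏ i, ((y : EE d).ofLp i) ^ α i)
      (fun r : Ioi (0 : ℝ) => (r : ℝ) ^ (∑ i, α i) * exp (-(1 / 2) * (r : ℝ) ^ 2)), hdim]
    rfl
  rw [h1, h2, h3] at h0
  have hr := rad_pos (d - 1) (∑ i, α i)
  field_simp
  linarith

end Run7.h545
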