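import Mathlib
import Pool.Agent.Run7.h545.Sphere

/-!
# From vectors with Gaussian moments of order `2 t` to spherical designs
-/

set_option autoImplicit false

namespace Run7.h545

open MeasureTheory

/-- Monomials. -/
noncomputable def mon {d : ℕ} (β : Fin d → ℕ) (y : Fin d → ℝ) : ℝ := ∏ i, y i ^ β i

lemma gam_odd (n : ℕ) (hn : Odd n) : gam n = 0 := by
  obtain ⟨k, rfl⟩ := hn
  induction k with
  | zero => exact gam_one
  | succ k ih =>
    have : 2 * (k + 1) + 1 = 2 * k + 1 + 2 := by ring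
    rw [this, gam_add_two, ih, mul_zero]

lemma prod_gam_odd {d : ℕ} (β : Fin d → ℕ) (h : Odd (∑ i, β i)) : ∏ i, gam (β i) = 0 := by
  by_contra hne
  have h1 : ∀ i, Even (β i) := by
    intro i
    by_contra h2
    apply hne
    exact Finset.prod_eq_zero (Finset.mem_univ i) (gam_odd _ (Nat.not_even_iff_odd.mp h2))
  have h2 : Even (∑ i, β i) := Finset.even_sum _ (fun i _ => h1 i)
  exact (Nat.not_even_iff_odd.mpr h) h2

lemma mon_smul {d : ℕ} (β : Fin d → ℕ) (c : ℝ) (y : Fin d → ℝ) :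
    mon β (fun i => c * y i) = c ^ (∑ i, β i) * mon β y := by
  unfold mon
  rw [← Finset.prod_pow_eq_pow_sum, ← Finset.prod_mul_distrib]
  exact Finset.prod_congr rfl (fun i _ => mul_pow _ _ _)

lemma mon_add_two {d : ℕ} (β : Fin d → ℕ) (i : Fin d) (y : Fin d → ℝ) :
    mon (β + Pi.single i 2) y = y i ^ 2 * mon β y := by
  unfold mon
  have h1 : ∀ j, y j ^ ((β + Pi.single i 2 : Fin d → ℕ) j) =
      y j ^ β j * y j ^ ((Pi.single i 2 : Fin d → ℕ) j) := by
    intro j
    rw [Pi.add_apply, pow_add]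
  simp_rw [h1]
  rw [Finset.prod_mul_distrib, mul_comm]
  congr 1
  rw [Finset.prod_eq_single i]
  · simp
  · intro j _ hj
    rw [Pi.single_eq_of_ne hj]; simp
  · intro h; exact absurd (Finset.mem_univ i) h

lemma sum_add_two {d : ℕ} (β : Fin d → ℕ) (i : Fin d) :
    ∑ j, (β + Pi.single i 2 : Fin d → ℕ) j = ∑ j, β j + 2 := by
  simp [Finset.sum_add_distrib]

/-- The surface measure. -/
noncomputable def sm (d : ℕ) : Measure (Metric.sphere (0 : EE d) 1) :=
  (volume : Measure (EE d)).toSphere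

instance (d : ℕ) : IsFiniteMeasure (sm d) := by unfold sm; infer_instance

lemma sphere_sum_sq {d : ℕ} (y : Metric.sphere (0 : EE d) 1) :
    ∑ i, ((y : EE d).ofLp i) ^ 2 = 1 := by
  have h1 : ‖(y : EE d)‖ = 1 := by simp
  have h2 := EuclideanSpace.norm_sq_eq (y : EE d)
  rw [h1] at h2
  simp only [Real.norm_eq_abs, sq_abs] at h2
  linarith

lemma mon_sphere {d : ℕ} (β : Fin d → ℕ) (y : Metric.sphere (0 : EE d) 1) :
    mon β (y : EE d).ofLp = ∑ i, mon (β + Pi.single i 2) (y : EE d).ofLp := by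
  simp_rw [mon_add_two]
  rw [← Finset.sum_mul, sphere_sum_sq, one_mul]

lemma continuous_mon {d : ℕ} (β : Fin d → ℕ) :
    Continuous (fun y : Metric.sphere (0 : EE d) 1 => mon β (y : EE d).ofLp) := by
  unfold mon
  apply continuous_finsetProd
  intro i _
  apply Continuous.pow
  have h1 : Continuous (fun y : Metric.sphere (0 : EE d) 1 => (y : EE d)) := continuous_subtype_val
  have h2 : Continuous (fun z : EE d => z.ofLp i) := by fun_prop
  exact h2.comp h1

lemma integrable_mon {d : ℕ} (β : Fin d → ℕ) :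
    Integrable (fun y : Metric.sphere (0 : EE d) 1 => mon β (y : EE d).ofLp) (sm d) :=
  (continuous_mon β).integrable_of_hasCompactSupport (HasCompactSupport.of_compactSpace _)

lemma integral_mon {d : ℕ} (hd : 1 ≤ d) (β : Fin d → ℕ) :
    ∫ y, mon β (y : EE d).ofLp ∂(sm d) =
      (√(2 * Real.pi) ^ d / rad (d - 1) (∑ i, β i)) * ∏ i, gam (β i) :=
  sphere_moments d hd β

lemma integral_mon_step {d : ℕ} (β : Fin d → ℕ) :
    ∫ y, mon β (y : EE d).ofLp ∂(sm d) =
      ∑ i, ∫ y, mon (β + Pi.single i 2) (y : EE d).ofLp ∂(sm d) := by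
  rw [← integral_finsetSum _ (fun i _ => integrable_mon _)]
  congr 1
  funext y
  exact mon_sphere β y

/-- A weighted point set that integrates all monomials of degree `2 t` and all monomials of odd
degree integrates all monomials of degree at most `2 t + 1`. -/
lemma descend {d t : ℕ} {G : Type*} [Fintype G] (x : G → Metric.sphere (0 : EE d) 1)
    (w : G → ℝ)
    (htop : ∀ β : Fin d → ℕ, ∑ i, β i = 2 * t →
      ∑ g, w g * mon β (x g : EE d).ofLp = ∫ y, mon β (y : EE d).ofLp ∂(sm d))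
    (hodd : ∀ β : Fin d → ℕ, Odd (∑ i, β i) →
      ∑ g, w g * mon β (x g : EE d).ofLp = ∫ y, mon β (y : EE d).ofLp ∂(sm d))
    (β : Fin d → ℕ) (hβ : ∑ i, β i ≤ 2 * t + 1) :
    ∑ g, w g * mon β (x g : EE d).ofLp = ∫ y, mon β (y : EE d).ofLp ∂(sm d) := by
  have key : ∀ k : ℕ, ∀ β : Fin d → ℕ, ∑ i, β i + 2 * k = 2 * t →
      ∑ g, w g * mon β (x g : EE d).ofLp = ∫ y, mon β (y : EE d).ofLp ∂(sm d) := by
    intro k
    induction k with
    | zero => intro β hβ; exact htop β (by omega)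
    | succ k ih =>
      intro β hβ
      rw [integral_mon_step]
      have h1 : ∀ i, ∑ g, w g * mon (β + Pi.single i 2) (x g : EE d).ofLp =
          ∫ y, mon (β + Pi.single i 2) (y : EE d).ofLp ∂(sm d) := by
        intro i
        apply ih
        rw [sum_add_two]; omega
      simp_rw [← h1]
      rw [Finset.sum_comm]
      apply Finset.sum_congr rfl
      intro g _
      rw [← Finset.mul_sum, ← mon_sphere]
  rcases Nat.even_or_odd (∑ i, β i) with h | h
  · obtain ⟨a, ha⟩ := h
    exact key (t - a) β (by omega)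
  · exact hodd β h

lemma poly_of_mon {d n : ℕ} {G : Type*} [Fintype G] (x : G → Metric.sphere (0 : EE d) 1)
    (w : G → ℝ)
    (h : ∀ β : Fin d → ℕ, ∑ i, β i ≤ n →
      ∑ g, w g * mon β (x g : EE d).ofLp = ∫ y, mon β (y : EE d).ofLp ∂(sm d))
    (p : MvPolynomial (Fin d) ℝ) (hp : p.totalDegree ≤ n) :
    ∑ g, w g * MvPolynomial.eval (fun j => (x g : EE d).ofLp j) p =
      ∫ y, MvPolynomial.eval (fun j => (y : EE d).ofLp j) p ∂(sm d) := by
  have h1 : ∀ y : Metric.sphere (0 : EE d) 1,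
      MvPolynomial.eval (fun j => (y : EE d).ofLp j) p =
        ∑ m ∈ p.support, p.coeff m * mon m (y : EE d).ofLp := by
    intro y
    rw [MvPolynomial.eval_eq']
    rfl
  simp_rw [h1]
  rw [integral_finsetSum _ (fun m _ => (integrable_mon _).const_mul _)]
  simp_rw [Finset.mul_sum]
  rw [Finset.sum_comm]
  apply Finset.sum_congr rfl
  intro m hm
  rw [integral_const_mul]
  rw [← h m]
  · rw [Finset.mul_sum]
    apply Finset.sum_congr rfl
    intro g _
    ring
  · have := MvPolynomial.le_totalDegree hm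
    rw [Finsupp.sum_fintype _ _ (fun _ => rfl)] at this
    exact this.trans hp

/-- **Assembly.** -/
theorem assembly {d t : ℕ} (hd : 1 ≤ d) (ht : 1 ≤ t) {J : Type*} [Fintype J]
    (Z : J → Fin d → ℝ) (w : J → ℝ) (c : ℝ) (hc : 0 < c) (hw : ∀ j, 0 ≤ w j)
    (h : ∀ β : Fin d → ℕ, ∑ i, β i = 2 * t → ∑ j, w j * mon β (Z j) = c * ∏ i, gam (β i)) :
    ∃ N : ℕ, N ≤ 2 * Fintype.card J ∧
      ∃ x : Fin N → Metric.sphere (0 : EE d) 1, ∃ w : Fin N → ℝ, (∀ i, 0 < w i) ∧
        ∀ p : MvPolynomial (Fin d) ℝ, p.totalDegree ≤ 2 * t + 1 →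
          ∑ i, w i * MvPolynomial.eval (fun j => (x i : EE d).ofLp j) p =
            ∫ y, MvPolynomial.eval (fun j => (y : EE d).ofLp j) p ∂(sm d) := by
  classical
  let sgn : Bool → ℝ := fun b => if b then 1 else -1
  have hsgn2 : ∀ b, |sgn b| = 1 := by intro b; cases b <;> simp [sgn]
  let nrm : J → ℝ := fun j => ‖(WithLp.toLp 2 (Z j) : EE d)‖
  have hnrm : ∀ j, Z j ≠ 0 → 0 < nrm j := by
    intro j hj
    show 0 < ‖(WithLp.toLp 2 (Z j) : EE d)‖
    rw [norm_pos_iff]
    intro h0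
    apply hj
    have := congrArg WithLp.ofLp h0
    simpa using this
  let G := {p : J × Bool // 0 < w p.1 ∧ Z p.1 ≠ 0}
  set κ : ℝ := √(2 * Real.pi) ^ d / rad (d - 1) (2 * t) / c with hκ
  have hκpos : 0 < κ := by
    have := rad_pos (d - 1) (2 * t)
    positivity
  let pt : G → Metric.sphere (0 : EE d) 1 := fun g =>
    ⟨(sgn g.1.2 * (nrm g.1.1)⁻¹) • (WithLp.toLp 2 (Z g.1.1) : EE d), by
      rw [mem_sphere_zero_iff_norm, norm_smul, Real.norm_eq_abs, abs_mul, hsgn2, one_mul,
        abs_inv, abs_of_pos (hnrm _ g.2.2)]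
      exact inv_mul_cancel₀ (hnrm _ g.2.2).ne'⟩
  let wt : G → ℝ := fun g => κ * w g.1.1 * nrm g.1.1 ^ (2 * t) / 2
  have hwt : ∀ g, 0 < wt g := by
    intro g
    have h1 := g.2.1
    have h2 := hnrm _ g.2.2
    show 0 < κ * w g.1.1 * nrm g.1.1 ^ (2 * t) / 2
    positivity
  have hmon : ∀ (g : G) (β : Fin d → ℕ), mon β (pt g : EE d).ofLp =
      (sgn g.1.2 * (nrm g.1.1)⁻¹) ^ (∑ i, β i) * mon β (Z g.1.1) := by
    intro g β
    rw [← mon_smul]
    rfl
  have hsum : ∀ β : Fin d → ℕ, ∑ g, wt g * mon β (pt g : EE d).ofLp =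
      ∑ j, if 0 < w j ∧ Z j ≠ 0 then
        κ * w j * nrm j ^ (2 * t) / 2 * ((1 + (-1) ^ (∑ i, β i)) * (nrm j)⁻¹ ^ (∑ i, β i) *
          mon β (Z j)) else 0 := by
    intro β
    simp_rw [hmon]
    have h1 : ∑ g : G, wt g * ((sgn g.1.2 * (nrm g.1.1)⁻¹) ^ (∑ i, β i) * mon β (Z g.1.1)) =
        ∑ p : J × Bool, if 0 < w p.1 ∧ Z p.1 ≠ 0 then
          κ * w p.1 * nrm p.1 ^ (2 * t) / 2 *
            ((sgn p.2 * (nrm p.1)⁻¹) ^ (∑ i, β i) * mon β (Z p.1)) else 0 := by
      rw [← Finset.sum_filter]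
      rw [Finset.sum_subtype (Finset.univ.filter (fun p : J × Bool => 0 < w p.1 ∧ Z p.1 ≠ 0))
        (p := fun p : J × Bool => 0 < w p.1 ∧ Z p.1 ≠ 0) (by intro x; simp)]
    rw [h1, Fintype.sum_prod_type]
    apply Finset.sum_congr rfl
    intro j _
    rw [Fintype.sum_bool]
    split_ifs with hj
    · have e1 : sgn true = 1 := rfl
      have e2 : sgn false = -1 := rfl
      simp only [e1, e2]
      rw [one_mul, neg_one_mul, neg_pow]
      ring
    · simp
  have htop : ∀ β : Fin d → ℕ, ∑ i, β i = 2 * t →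
      ∑ g, wt g * mon β (pt g : EE d).ofLp = ∫ y, mon β (y : EE d).ofLp ∂(sm d) := by
    intro β hβ
    rw [hsum, integral_mon hd, hβ]
    have h1 : ∀ j, (if 0 < w j ∧ Z j ≠ 0 then
        κ * w j * nrm j ^ (2 * t) / 2 * ((1 + (-1) ^ (2 * t)) * (nrm j)⁻¹ ^ (2 * t) *
          mon β (Z j)) else 0) = κ * (w j * mon β (Z j)) := by
      intro j
      split_ifs with hj
      · have h2 := hnrm j hj.2
        have h3 : ((-1 : ℝ)) ^ (2 * t) = 1 := by rw [pow_mul]; norm_num
        rw [h3, inv_pow]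
        field_simp
        ring
      · rw [not_and_or] at hj
        rcases hj with hj | hj
        · have : w j = 0 := le_antisymm (not_lt.mp hj) (hw j)
          rw [this]; ring
        · rw [not_not] at hj
          have : mon β (Z j) = 0 := by
            have h4 : ∃ i, β i ≠ 0 := by
              by_contra h5
              push Not at h5
              have : ∑ i, β i = 0 := Finset.sum_eq_zero (fun i _ => h5 i)
              omega
            obtain ⟨i, hi⟩ := h4
            unfold mon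
            apply Finset.prod_eq_zero (Finset.mem_univ i)
            rw [hj, Pi.zero_apply, zero_pow hi]
          rw [this]; ring
    simp_rw [h1]
    rw [← Finset.mul_sum, h β hβ, hκ]
    field_simp
  have hodd : ∀ β : Fin d → ℕ, Odd (∑ i, β i) →
      ∑ g, wt g * mon β (pt g : EE d).ofLp = ∫ y, mon β (y : EE d).ofLp ∂(sm d) := by
    intro β hβ
    rw [hsum, integral_mon hd, prod_gam_odd β hβ, mul_zero]
    apply Finset.sum_eq_zero
    intro j _
    rw [hβ.neg_one_pow]
    split_ifs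
    · ring
    · rfl
  have hall := poly_of_mon (n := 2 * t + 1) pt wt (fun β hβ => descend pt wt htop hodd β hβ)
  let e := Fintype.equivFin G
  refine ⟨Fintype.card G, ?_, fun i => pt (e.symm i), fun i => wt (e.symm i),
    fun i => hwt _, ?_⟩
  · calc Fintype.card G ≤ Fintype.card (J × Bool) := Fintype.card_subtype_le _
      _ = 2 * Fintype.card J := by rw [Fintype.card_prod, Fintype.card_bool, mul_comm]
  · intro p hp
    rw [← hall p hp]
    exact Equiv.sum_comp e.symm (fun g => wt g * MvPolynomial.eval (fun j => (pt g : EE d).ofLp j) p)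

end Run7.h545
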