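import Mathlib
import Pool.Agent.Run7.h545.Code

/-!
# Existence of good binary codes (BCH codes) with arbitrary strength
-/

set_option autoImplicit false

namespace Run7.h545

open Finset

/-- In characteristic two, if the number of elements is even and the odd power sums with exponent
below `2 s` vanish, then all power sums with exponent at most `2 s` vanish. -/
lemma powerSums_zero {F : Type*} [Field F] [CharP F 2] {I : Type*} (W : Finset I) (x : I → F)
    (s : ℕ) (h0 : (W.card : F) = 0) (h : ∀ j < s, ∑ i ∈ W, x i ^ (2 * j + 1) = 0) :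
    ∀ e, e ≤ 2 * s → ∑ i ∈ W, x i ^ e = 0 := by
  intro e
  induction e using Nat.strong_induction_on with
  | _ e ih =>
    intro he
    rcases Nat.even_or_odd' e with ⟨k, hk | hk⟩
    · rcases Nat.eq_zero_or_pos k with hk0 | hk0
      · subst hk; subst hk0; simpa using h0
      · have h1 := ih k (by omega) (by omega)
        have : ∑ i ∈ W, x i ^ e = (∑ i ∈ W, x i ^ k) ^ 2 := by
          have : Fact (Nat.Prime 2) := ⟨Nat.prime_two⟩
          have : ExpChar F 2 := inferInstance
          rw [sum_pow_char 2]
          apply Finset.sum_congr rfl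
          intro i _
          rw [hk, ← pow_mul, mul_comm]
        rw [this, h1]; simp
    · have := h k (by omega)
      rw [hk]; exact this

/-- A nonempty set of distinct field elements with at most `N + 1` members cannot have all power
sums of exponents `0, …, N` equal to zero. -/
lemma powerSums_ne_zero {F : Type*} [Field F] {I : Type*} [DecidableEq I] (W : Finset I)
    (x : I → F) (hx : Function.Injective x) (hW : W.Nonempty) (N : ℕ) (hN : W.card ≤ N + 1)
    (h : ∀ e, e ≤ N → ∑ i ∈ W, x i ^ e = 0) : False := by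
  obtain ⟨i0, hi0⟩ := hW
  set P : Polynomial F := ∏ i ∈ W.erase i0, (Polynomial.X - Polynomial.C (x i)) with hP
  have hdeg : P.natDegree ≤ N := by
    rw [hP, Polynomial.natDegree_prod_of_monic _ _ (fun i _ => Polynomial.monic_X_sub_C _)]
    simp only [Polynomial.natDegree_X_sub_C, Finset.sum_const, smul_eq_mul, mul_one]
    rw [Finset.card_erase_of_mem hi0]; omega
  have h1 : ∑ i ∈ W, P.eval (x i) = 0 := by
    simp_rw [Polynomial.eval_eq_sum_range' (Nat.lt_succ_of_le hdeg)]
    rw [Finset.sum_comm]
    apply Finset.sum_eq_zero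
    intro e he
    rw [← Finset.mul_sum, h e (by simpa [Nat.lt_succ_iff] using he), mul_zero]
  rw [Finset.sum_eq_single i0] at h1
  · have : P.eval (x i0) ≠ 0 := by
      rw [hP, Polynomial.eval_prod]
      apply Finset.prod_ne_zero_iff.mpr
      intro i hi
      simp only [Polynomial.eval_sub, Polynomial.eval_X, Polynomial.eval_C]
      rw [sub_ne_zero]
      intro h'
      exact (Finset.ne_of_mem_erase hi) (hx h').symm
    exact this h1
  · intro b hb hb0
    rw [hP, Polynomial.eval_prod]
    apply Finset.prod_eq_zero (Finset.mem_erase.mpr ⟨hb0, hb⟩)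
    simp
  · intro h'; exact absurd hi0 h'

/-- **BCH codes.**  For all `n ≥ 1` and `s` there is a binary code with `n` bits, of strength
`2 s + 1`, with at most `2 (2 n) ^ s` words. -/
theorem exists_code {I : Type*} [Fintype I] [DecidableEq I] [Nonempty I] (s : ℕ) :
    ∃ r : ℕ, 2 ^ r ≤ 2 * (2 * Fintype.card I) ^ s ∧
      ∃ v : I → Fin r → ZMod 2, Strong v (2 * s + 1) := by
  classical
  have : Fact (Nat.Prime 2) := ⟨Nat.prime_two⟩
  have hn : 1 ≤ Fintype.card I := Fintype.card_pos
  -- the exponent of the field
  obtain ⟨m, hm0, hm1, hm2⟩ : ∃ m : ℕ, m ≠ 0 ∧ Fintype.card I ≤ 2 ^ m ∧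
      2 ^ m ≤ 2 * Fintype.card I := by
    rcases Nat.eq_or_lt_of_le hn with h | h
    · exact ⟨1, one_ne_zero, by omega, by omega⟩
    · refine ⟨Nat.clog 2 (Fintype.card I), ?_, ?_, ?_⟩
      · have : 0 < Nat.clog 2 (Fintype.card I) := Nat.clog_pos (by norm_num) (by omega)
        omega
      · exact Nat.le_pow_clog (by norm_num) _
      · have h1 : 2 ^ (Nat.clog 2 (Fintype.card I) - 1) < Fintype.card I :=
          Nat.pow_pred_clog_lt_self (by norm_num) h
        have h2 : 0 < Nat.clog 2 (Fintype.card I) := Nat.clog_pos (by norm_num) (by omega)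
        have h3 : 2 ^ (Nat.clog 2 (Fintype.card I)) =
            2 * 2 ^ (Nat.clog 2 (Fintype.card I) - 1) := by
          rw [← pow_succ']; congr 1; omega
        omega
  let F := GaloisField 2 m
  let _ : Fintype F := Fintype.ofFinite F
  have hcardF : Fintype.card F = 2 ^ m := by
    rw [← Nat.card_eq_fintype_card]; exact GaloisField.card 2 m hm0
  obtain ⟨x⟩ : Nonempty (I ↪ F) := Function.Embedding.nonempty_of_card_le (by rw [hcardF]; exact hm1)
  let V := (Fin s → F) × ZMod 2
  have hcardV : Fintype.card V = (2 ^ m) ^ s * 2 := by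
    have h1 : Fintype.card V = Fintype.card (Fin s → F) * Fintype.card (ZMod 2) :=
      Fintype.card_prod _ _
    have h2 : Fintype.card (Fin s → F) = Fintype.card F ^ Fintype.card (Fin s) := Fintype.card_fun
    rw [h1, h2, hcardF, ZMod.card, Fintype.card_fin]
  let b := Module.finBasis (ZMod 2) V
  let u : I → V := fun i => (fun j => x i ^ (2 * (j : ℕ) + 1), 1)
  have hu : ∀ W : Finset I, W.Nonempty → W.card ≤ 2 * s + 1 → ∑ i ∈ W, u i ≠ 0 := by
    intro W hW hcard hzero
    have hz1 : ∀ j < s, ∑ i ∈ W, (x i) ^ (2 * j + 1) = 0 := by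
      intro j hj
      have := congrFun (congrArg Prod.fst hzero) ⟨j, hj⟩
      rw [Prod.fst_sum, Finset.sum_apply] at this
      simpa [u] using this
    have hz2 : ((W.card : ℕ) : ZMod 2) = 0 := by
      have := congrArg Prod.snd hzero
      rw [Prod.snd_sum] at this
      simpa [u] using this
    have heven : 2 ∣ W.card := (ZMod.natCast_eq_zero_iff _ _).mp hz2
    have hz3 : ((W.card : ℕ) : F) = 0 := by
      rw [CharP.cast_eq_zero_iff F 2]; exact heven
    have hps := powerSums_zero W x s hz3 hz1
    exact powerSums_ne_zero W x x.injective hW (2 * s) hcard hps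
  refine ⟨Module.finrank (ZMod 2) V, ?_, fun i => b.equivFun (u i), ?_⟩
  · have h1 : Fintype.card V = 2 ^ Module.finrank (ZMod 2) V := by
      have := Module.card_eq_pow_finrank (K := ZMod 2) (V := V)
      rw [ZMod.card] at this
      exact this
    rw [← h1, hcardV, mul_comm]
    exact Nat.mul_le_mul_left 2 (Nat.pow_le_pow_left hm2 s)
  · intro W hW hcard hzero
    rw [← map_sum] at hzero
    exact hu W hW hcard ((LinearEquiv.map_eq_zero_iff _).mp hzero)

end Run7.h545
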