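import Mathlib
import Pool.Agent.Run7.h545.BCH
import Pool.Agent.Run7.h545.Assembly

/-!
# Weighted spherical designs of strength `2 t + 1` with `O(d ^ (t + ⌊t / 2⌋))` points
-/

set_option autoImplicit false

namespace Run7.h545

open MeasureTheory

/-- Codes for a possibly empty index set. -/
theorem exists_code' (I : Type*) [Fintype I] [DecidableEq I] (s : ℕ) :
    ∃ r : ℕ, 2 ^ r ≤ 2 * (2 * (Fintype.card I + 1)) ^ s ∧
      ∃ v : I → Fin r → ZMod 2, Strong v (2 * s + 1) := by
  obtain ⟨r, hr, v, hv⟩ := exists_code (I := Option I) s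
  refine ⟨r, ?_, fun i => v (some i), ?_⟩
  · rw [Fintype.card_option] at hr; exact hr
  · intro W hW hcard
    have h := hv (W.map Function.Embedding.some) (by simpa using hW) (by simpa using hcard)
    rw [Finset.sum_map] at h
    exact h

lemma mon_single {d : ℕ} (β : Fin d → ℕ) (j : Fin d) :
    mon β (Pi.single j 1) = if ∀ k, k ≠ j → β k = 0 then 1 else 0 := by
  unfold mon
  split_ifs with h
  · apply Finset.prod_eq_one
    intro k _
    by_cases hk : k = j
    · subst hk; simp
    · rw [h k hk, pow_zero]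
  · push Not at h
    obtain ⟨k, hk, hβ⟩ := h
    apply Finset.prod_eq_zero (Finset.mem_univ k)
    rw [Pi.single_eq_of_ne hk, zero_pow hβ]

/-- The vectors: samples of the law and coordinate vectors. -/
theorem vectors (t : ℕ) (ht : 1 ≤ t) (L : Law) (hL : ∀ n < 2 * t, L.m n = gam n)
    (hL2 : L.m (2 * t) < gam (2 * t)) (d : ℕ) :
    ∃ (J : Type) (_ : Fintype J),
      Fintype.card J ≤ 2 * (2 * (Fintype.card L.S * d + 1)) ^ t *
        (2 * (2 * (Fintype.card L.S * d + 1)) ^ (t / 2)) + d ∧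
      ∃ (Z : J → Fin d → ℝ) (w : J → ℝ), (∀ j, 0 ≤ w j) ∧
        ∀ β : Fin d → ℕ, ∑ i, β i = 2 * t → ∑ j, w j * mon β (Z j) = 1 * ∏ i, gam (β i) := by
  obtain ⟨r1, hr1, v1, hv1⟩ := exists_code' (L.S × Fin d) t
  obtain ⟨r2, hr2, v2, hv2⟩ := exists_code' (L.S × Fin d) (t / 2)
  rw [Fintype.card_prod, Fintype.card_fin] at hr1 hr2
  refine ⟨((Fin r1 → ZMod 2) × (Fin r2 → ZMod 2)) ⊕ Fin d, inferInstance, ?_, ?_⟩
  · have e1 : Fintype.card (((Fin r1 → ZMod 2) × (Fin r2 → ZMod 2)) ⊕ Fin d) =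
        2 ^ r1 * 2 ^ r2 + d := by
      simp [ZMod.card]
    rw [e1]
    exact Nat.add_le_add_right (Nat.mul_le_mul hr1 hr2) d
  · set N1 : ℝ := (Fintype.card (Fin r1 → ZMod 2) : ℝ) with hN1
    set N2 : ℝ := (Fintype.card (Fin r2 → ZMod 2) : ℝ) with hN2
    have hN1pos : 0 < N1 := by rw [hN1]; exact_mod_cast Fintype.card_pos
    have hN2pos : 0 < N2 := by rw [hN2]; exact_mod_cast Fintype.card_pos
    refine ⟨Sum.elim (fun q => L.X v1 v2 q.1 q.2) (fun i => Pi.single i 1),
      Sum.elim (fun _ => 1 / (N1 * N2)) (fun _ => gam (2 * t) - L.m (2 * t)), ?_, ?_⟩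
    · rintro (q | i)
      · simp only [Sum.elim_inl]; positivity
      · simp only [Sum.elim_inr]; linarith
    · intro β hβ
      rw [Fintype.sum_sum_type]
      simp only [Sum.elim_inl, Sum.elim_inr]
      have h1 : ∑ q : (Fin r1 → ZMod 2) × (Fin r2 → ZMod 2),
          1 / (N1 * N2) * mon β (L.X v1 v2 q.1 q.2) = ∏ i, L.m (β i) := by
        rw [← Finset.mul_sum, Fintype.sum_prod_type]
        have := L.moment_eq v1 v2 (2 * t + 1) (2 * (t / 2) + 1) hv1 hv2 β (by omega) (by omega)
        unfold mon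
        rw [this, ← hN1, ← hN2]
        field_simp
      rw [h1, one_mul, ← Finset.mul_sum]
      simp_rw [mon_single]
      by_cases hex : ∃ i, β i = 2 * t
      · obtain ⟨i, hi⟩ := hex
        have hzero : ∀ k, k ≠ i → β k = 0 := by
          intro k hk
          have h2 : β i + β k ≤ ∑ j, β j := by
            have h3 : ∑ j ∈ ({i, k} : Finset (Fin d)), β j ≤ ∑ j, β j :=
              Finset.sum_le_sum_of_subset (Finset.subset_univ _)
            rw [Finset.sum_pair (Ne.symm hk)] at h3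
            exact h3
          omega
        have h2 : ∑ j, (if ∀ k, k ≠ j → β k = 0 then (1 : ℝ) else 0) = 1 := by
          rw [Finset.sum_eq_single i]
          · rw [if_pos hzero]
          · intro j _ hj
            rw [if_neg]
            intro h3
            have := h3 i (Ne.symm hj)
            omega
          · intro h; exact absurd (Finset.mem_univ i) h
        have h3 : ∏ j, L.m (β j) = L.m (2 * t) := by
          rw [Finset.prod_eq_single i]
          · rw [hi]
          · intro j _ hj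
            rw [hzero j hj, L.m_zero]
          · intro h; exact absurd (Finset.mem_univ i) h
        have h4 : ∏ j, gam (β j) = gam (2 * t) := by
          rw [Finset.prod_eq_single i]
          · rw [hi]
          · intro j _ hj
            rw [hzero j hj, gam_zero]
          · intro h; exact absurd (Finset.mem_univ i) h
        rw [h2, h3, h4]; ring
      · push Not at hex
        have hlt : ∀ i, β i < 2 * t := by
          intro i
          have h2 : β i ≤ ∑ j, β j := Finset.single_le_sum (fun _ _ => Nat.zero_le _)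
            (Finset.mem_univ i)
          have := hex i
          omega
        have h2 : ∑ j, (if ∀ k, k ≠ j → β k = 0 then (1 : ℝ) else 0) = 0 := by
          apply Finset.sum_eq_zero
          intro j _
          rw [if_neg]
          intro h3
          have h4 : ∑ i, β i = β j := Finset.sum_eq_single j (fun k _ hk => h3 k hk)
            (fun h => absurd (Finset.mem_univ j) h)
          have := hlt j
          omega
        rw [h2, mul_zero, add_zero]
        exact Finset.prod_congr rfl (fun i _ => hL _ (hlt i))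

/-- The case `t = 0`. -/
theorem case_zero (d : ℕ) (hd : 1 ≤ d) :
    ∃ x : Fin 2 → Metric.sphere (0 : EE d) 1, ∃ w : Fin 2 → ℝ, (∀ i, 0 < w i) ∧
        ∀ p : MvPolynomial (Fin d) ℝ, p.totalDegree ≤ 2 * 0 + 1 →
          ∑ i, w i * MvPolynomial.eval (fun j => (x i : EE d).ofLp j) p =
            ∫ y, MvPolynomial.eval (fun j => (y : EE d).ofLp j) p ∂(sm d) := by
  let i0 : Fin d := ⟨0, hd⟩
  let sg : Fin 2 → ℝ := ![1, -1]
  have hsg : ∀ i, |sg i| = 1 := by
    intro i; fin_cases i <;> simp [sg]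
  let x : Fin 2 → Metric.sphere (0 : EE d) 1 := fun i =>
    ⟨sg i • (EuclideanSpace.single i0 (1 : ℝ)), by
      rw [mem_sphere_zero_iff_norm, norm_smul, Real.norm_eq_abs, hsg]; simp⟩
  set A : ℝ := √(2 * Real.pi) ^ d / rad (d - 1) 0 with hA
  have hApos : 0 < A := by
    have := rad_pos (d - 1) 0
    positivity
  let w : Fin 2 → ℝ := fun _ => A / 2
  refine ⟨x, w, fun _ => by show 0 < A / 2; positivity, ?_⟩
  apply poly_of_mon
  apply descend
  · intro β hβ
    rw [integral_mon hd, hβ]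
    have hz : ∀ i, β i = 0 := by
      intro i
      have h2 : β i ≤ ∑ j, β j := Finset.single_le_sum (fun _ _ => Nat.zero_le _)
        (Finset.mem_univ i)
      omega
    have h1 : ∀ y : Fin d → ℝ, mon β y = 1 := by
      intro y; unfold mon; exact Finset.prod_eq_one (fun i _ => by rw [hz i, pow_zero])
    have h2 : ∏ i, gam (β i) = 1 := Finset.prod_eq_one (fun i _ => by rw [hz i, gam_zero])
    simp_rw [h1]
    rw [h2, Fin.sum_univ_two, mul_zero]
    show A / 2 * 1 + A / 2 * 1 = A * 1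
    ring
  · intro β hβ
    rw [integral_mon hd, prod_gam_odd β hβ, mul_zero, Fin.sum_univ_two]
    have h1 : mon β (x 1 : EE d).ofLp = - mon β (x 0 : EE d).ofLp := by
      have h2 : (x 1 : EE d).ofLp = fun i => (-1 : ℝ) * (x 0 : EE d).ofLp i := by
        funext i
        simp only [x, sg, WithLp.ofLp_smul, Pi.smul_apply, smul_eq_mul, Matrix.cons_val_zero,
          Matrix.cons_val_one]
        ring
      rw [h2, mon_smul, hβ.neg_one_pow]; ring
    rw [h1]
    show A / 2 * _ + A / 2 * _ = 0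
    ring

/-- The main theorem. -/
theorem main (t : ℕ) : ∃ C : ℝ, ∀ d : ℕ, 1 ≤ d →
    ∃ N : ℕ, (N : ℝ) ≤ C * (d : ℝ) ^ (t + t / 2) ∧
      ∃ x : Fin N → Metric.sphere (0 : EE d) 1, ∃ w : Fin N → ℝ, (∀ i, 0 < w i) ∧
        ∀ p : MvPolynomial (Fin d) ℝ, p.totalDegree ≤ 2 * t + 1 →
          ∑ i, w i * MvPolynomial.eval (fun j => (x i : EE d).ofLp j) p =
            ∫ y, MvPolynomial.eval (fun j => (y : EE d).ofLp j) p ∂(sm d) := by
  rcases Nat.eq_zero_or_pos t with h | ht
  · subst h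
    refine ⟨2, fun d hd => ⟨2, by simp, case_zero d hd⟩⟩
  · obtain ⟨L, hL, hL2⟩ := exists_law t ht
    set S : ℕ := Fintype.card L.S with hS
    refine ⟨2 * (4 * (2 * ((S : ℝ) + 1)) ^ (t + t / 2) + 1), fun d hd => ?_⟩
    obtain ⟨J, _, hJ, Z, w, hw, hZ⟩ := vectors t ht L hL hL2 d
    obtain ⟨N, hN, x, w', hw', hx⟩ := assembly hd ht Z w 1 one_pos hw hZ
    refine ⟨N, ?_, x, w', hw', hx⟩
    have hd' : (1 : ℝ) ≤ (d : ℝ) := by exact_mod_cast hd
    have h1 : (N : ℝ) ≤ 2 * (2 * (2 * ((S : ℝ) * d + 1)) ^ t *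
        (2 * (2 * ((S : ℝ) * d + 1)) ^ (t / 2)) + d) := by
      have := hN.trans (Nat.mul_le_mul_left 2 hJ)
      exact_mod_cast this
    have h2 : (S : ℝ) * d + 1 ≤ (S + 1) * d := by nlinarith
    have h3 : (0 : ℝ) ≤ (S : ℝ) * d + 1 := by positivity
    have h4 : (2 * ((S : ℝ) * d + 1)) ^ (t + t / 2) ≤ (2 * ((S + 1) * d)) ^ (t + t / 2) :=
      pow_le_pow_left₀ (by positivity) (by linarith) _
    have h5 : (d : ℝ) ≤ (d : ℝ) ^ (t + t / 2) := by
      calc (d : ℝ) = (d : ℝ) ^ 1 := (pow_one _).symm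
        _ ≤ (d : ℝ) ^ (t + t / 2) := pow_le_pow_right₀ hd' (by omega)
    calc (N : ℝ) ≤ 2 * (2 * (2 * ((S : ℝ) * d + 1)) ^ t *
        (2 * (2 * ((S : ℝ) * d + 1)) ^ (t / 2)) + d) := h1
      _ = 2 * (4 * (2 * ((S : ℝ) * d + 1)) ^ (t + t / 2) + d) := by rw [pow_add]; ring
      _ ≤ 2 * (4 * (2 * (((S : ℝ) + 1) * d)) ^ (t + t / 2) + (d : ℝ) ^ (t + t / 2)) := by
        linarith
      _ = 2 * (4 * (2 * ((S : ℝ) + 1)) ^ (t + t / 2) + 1) * (d : ℝ) ^ (t + t / 2) := by
        rw [← mul_assoc 2 ((S : ℝ) + 1) (d : ℝ), mul_pow]; ring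

end Run7.h545
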